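import Mathlib
import Pool.Agent.Lib.MP_fe2d2a_anLP.Cert82
import Pool.Agent.Lib.MP_fe2d2a_anLP.Cert83
import Pool.Agent.Lib.MP_fe2d2a_anLP.Cert84
import Pool.Agent.Lib.MP_fe2d2a_anLP.Cert85
import Pool.Agent.Lib.MP_fe2d2a_anLP.Cert86
import Pool.Agent.Lib.MP_fe2d2a_anLP.Cert87

/-!
# Evans problem, the algebra for `n = 8`
-/

set_option autoImplicit false
set_option maxRecDepth 100000

namespace Pool.Agent.Lib.MP_fe2d2a_anLP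

/-- The algebra for `n = 8`: `p j = E_j / binom(8, j)`, `E_j` the elementary symmetric functions; `c m`, `W m` are the
coefficients of `P` and of the velocity, up to positive constants. -/
theorem eight_alg (p0 p1 p2 p3 p4 p5 p6 p7 p8 : ℝ) (hp0 : 0 < p0) (hp1 : 0 < p1) (hp2 : 0 < p2) (hp3 : 0 < p3) (hp4 : 0 < p4) (hp5 : 0 < p5) (hp6 : 0 < p6) (hp7 : 0 < p7) (hp8 : 0 < p8)
    (hn1 : p0 * p2 ≤ p1 ^ 2)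
    (hn2 : p1 * p3 ≤ p2 ^ 2)
    (hn3 : p2 * p4 ≤ p3 ^ 2)
    (hn4 : p3 * p5 ≤ p4 ^ 2)
    (hn5 : p4 * p6 ≤ p5 ^ 2)
    (hn6 : p5 * p7 ≤ p6 ^ 2)
    (hn7 : p6 * p8 ≤ p7 ^ 2)
    (hc1 : 0 < -16 * p0 ^ 2 + 672 * p0 * p2 - 1120 * p0 * p4 + 224 * p0 * p6 - 768 * p1 ^ 2 + 7168 * p1 * p3 - 3584 * p1 * p5 - 6272 * p2 ^ 2 + 15680 * p2 * p4 - 224 * p2 * p8 - 12544 * p3 ^ 2 + 3584 * p3 * p7 - 15680 * p4 * p6 + 1120 * p4 * p8 + 12544 * p5 ^ 2 - 7168 * p5 * p7 + 6272 * p6 ^ 2 - 672 * p6 * p8 + 768 * p7 ^ 2 + 16 * p8 ^ 2)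
    (hc2 : 0 < 120 * p0 ^ 2 - 3584 * p0 * p2 + 3360 * p0 * p4 - 16 * p0 * p8 + 4096 * p1 ^ 2 - 21504 * p1 * p3 + 1024 * p1 * p7 + 18816 * p2 ^ 2 - 12544 * p2 * p6 + 50176 * p3 * p5 - 39200 * p4 ^ 2 + 3360 * p4 * p8 - 21504 * p5 * p7 + 18816 * p6 ^ 2 - 3584 * p6 * p8 + 4096 * p7 ^ 2 + 120 * p8 ^ 2)
    (hc3 : 0 < -560 * p0 ^ 2 + 10976 * p0 * p2 - 3360 * p0 * p4 - 1120 * p0 * p6 - 12544 * p1 ^ 2 + 21504 * p1 * p3 + 17920 * p1 * p5 - 18816 * p2 ^ 2 - 78400 * p2 * p4 + 1120 * p2 * p8 + 62720 * p3 ^ 2 - 17920 * p3 * p7 + 78400 * p4 * p6 + 3360 * p4 * p8 - 62720 * p5 ^ 2 - 21504 * p5 * p7 + 18816 * p6 ^ 2 - 10976 * p6 * p8 + 12544 * p7 ^ 2 + 560 * p8 ^ 2)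
    (hc4 : 0 < 1820 * p0 ^ 2 - 20384 * p0 * p2 - 5040 * p0 * p4 + 1120 * p0 * p6 + 56 * p0 * p8 + 23296 * p1 ^ 2 + 32256 * p1 * p3 - 17920 * p1 * p5 - 3584 * p1 * p7 - 28224 * p2 ^ 2 + 78400 * p2 * p4 + 43904 * p2 * p6 + 1120 * p2 * p8 - 62720 * p3 ^ 2 - 175616 * p3 * p5 - 17920 * p3 * p7 + 137200 * p4 ^ 2 + 78400 * p4 * p6 - 5040 * p4 * p8 - 62720 * p5 ^ 2 + 32256 * p5 * p7 - 28224 * p6 ^ 2 - 20384 * p6 * p8 + 23296 * p7 ^ 2 + 1820 * p8 ^ 2)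
    (hc5 : 0 < -4368 * p0 ^ 2 + 20384 * p0 * p2 + 16800 * p0 * p4 + 2016 * p0 * p6 - 23296 * p1 ^ 2 - 107520 * p1 * p3 - 32256 * p1 * p5 + 94080 * p2 ^ 2 + 141120 * p2 * p4 - 2016 * p2 * p8 - 112896 * p3 ^ 2 + 32256 * p3 * p7 - 141120 * p4 * p6 - 16800 * p4 * p8 + 112896 * p5 ^ 2 + 107520 * p5 * p7 - 94080 * p6 ^ 2 - 20384 * p6 * p8 + 23296 * p7 ^ 2 + 4368 * p8 ^ 2)
    (hc6 : 0 < 8008 * p0 ^ 2 - 12320 * p0 * p4 - 3584 * p0 * p6 - 112 * p0 * p8 + 78848 * p1 * p3 + 57344 * p1 * p5 + 7168 * p1 * p7 - 68992 * p2 ^ 2 - 250880 * p2 * p4 - 87808 * p2 * p6 - 3584 * p2 * p8 + 200704 * p3 ^ 2 + 351232 * p3 * p5 + 57344 * p3 * p7 - 274400 * p4 ^ 2 - 250880 * p4 * p6 - 12320 * p4 * p8 + 200704 * p5 ^ 2 + 78848 * p5 * p7 - 68992 * p6 ^ 2 + 8008 * p8 ^ 2)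
    (hc7 : 0 < -11440 * p0 ^ 2 - 32032 * p0 * p2 - 12320 * p0 * p4 - 1120 * p0 * p6 + 36608 * p1 ^ 2 + 78848 * p1 * p3 + 17920 * p1 * p5 - 68992 * p2 ^ 2 - 78400 * p2 * p4 + 1120 * p2 * p8 + 62720 * p3 ^ 2 - 17920 * p3 * p7 + 78400 * p4 * p6 + 12320 * p4 * p8 - 62720 * p5 ^ 2 - 78848 * p5 * p7 + 68992 * p6 ^ 2 + 32032 * p6 * p8 - 36608 * p7 ^ 2 + 11440 * p8 ^ 2)
    (hc8 : 0 < 12870 * p0 ^ 2 + 48048 * p0 * p2 + 27720 * p0 * p4 + 5040 * p0 * p6 + 140 * p0 * p8 - 54912 * p1 ^ 2 - 177408 * p1 * p3 - 80640 * p1 * p5 - 8960 * p1 * p7 + 155232 * p2 ^ 2 + 352800 * p2 * p4 + 109760 * p2 * p6 + 5040 * p2 * p8 - 282240 * p3 ^ 2 - 439040 * p3 * p5 - 80640 * p3 * p7 + 343000 * p4 ^ 2 + 352800 * p4 * p6 + 27720 * p4 * p8 - 282240 * p5 ^ 2 - 177408 * p5 * p7 + 155232 * p6 ^ 2 + 48048 *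 p6 * p8 - 54912 * p7 ^ 2 + 12870 * p8 ^ 2)
    (hW0 : 0 < 16 * p0 * p1 - 336 * p0 * p3 + 560 * p0 * p5 - 112 * p0 * p7 + 448 * p1 * p2 - 3360 * p1 * p4 + 2240 * p1 * p6 - 112 * p1 * p8 + 3136 * p2 * p3 - 9408 * p2 * p5 + 2240 * p2 * p7 + 7840 * p3 * p4 - 9408 * p3 * p6 + 560 * p3 * p8 + 7840 * p4 * p5 - 3360 * p4 * p7 + 3136 * p5 * p6 - 336 * p5 * p8 + 448 * p6 * p7 + 16 * p7 * p8)
    (hW1 : 0 < -224 * p0 * p1 + 3360 * p0 * p3 - 3360 * p0 * p5 + 224 * p0 * p7 - 4480 * p1 * p2 + 20160 * p1 * p4 - 4480 * p1 * p6 - 224 * p1 * p8 - 18816 * p2 * p3 + 18816 * p2 * p5 + 4480 * p2 * p7 - 15680 * p3 * p4 - 18816 * p3 * p6 + 3360 * p3 * p8 + 15680 * p4 * p5 - 20160 * p4 * p7 + 18816 * p5 * p6 - 3360 * p5 * p8 + 4480 * p6 * p7 + 224 * p7 * p8)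
    (hW2 : 0 ≤ 1456 * p0 * p1 - 14448 * p0 * p3 + 6160 * p0 * p5 + 560 * p0 * p7 + 19264 * p1 * p2 - 36960 * p1 * p4 - 11200 * p1 * p6 + 560 * p1 * p8 + 34496 * p2 * p3 + 47040 * p2 * p5 - 11200 * p2 * p7 - 39200 * p3 * p4 + 47040 * p3 * p6 + 6160 * p3 * p8 - 39200 * p4 * p5 - 36960 * p4 * p7 + 34496 * p5 * p6 - 14448 * p5 * p8 + 19264 * p6 * p7 + 1456 * p7 * p8)
    (hW3 : 0 ≤ -5824 * p0 * p1 + 33600 * p0 * p3 + 2240 * p0 * p5 - 1344 * p0 * p7 - 44800 * p1 * p2 - 13440 * p1 * p4 + 26880 * p1 * p6 + 1344 * p1 * p8 + 12544 * p2 * p3 - 112896 * p2 * p5 - 26880 * p2 * p7 + 94080 * p3 * p4 + 112896 * p3 * p6 - 2240 * p3 * p8 - 94080 * p4 * p5 + 13440 * p4 * p7 - 12544 * p5 * p6 - 33600 * p5 * p8 + 44800 * p6 * p7 + 5824 * p7 * p8)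
    (hW4 : 0 ≤ 16016 * p0 * p1 - 40656 * p0 * p3 - 21840 * p0 * p5 - 1008 * p0 * p7 + 54208 * p1 * p2 + 131040 * p1 * p4 + 20160 * p1 * p6 - 1008 * p1 * p8 - 122304 * p2 * p3 - 84672 * p2 * p5 + 20160 * p2 * p7 + 70560 * p3 * p4 - 84672 * p3 * p6 - 21840 * p3 * p8 + 70560 * p4 * p5 + 131040 * p4 * p7 - 122304 * p5 * p6 - 40656 * p5 * p8 + 54208 * p6 * p7 + 16016 * p7 * p8)
    (hW5 : 0 ≤ -32032 * p0 * p1 + 7392 * p0 * p3 + 21280 * p0 * p5 + 3360 * p0 * p7 - 9856 * p1 * p2 - 127680 * p1 * p4 - 67200 * p1 * p6 - 3360 * p1 * p8 + 119168 * p2 * p3 + 282240 * p2 * p5 + 67200 * p2 * p7 - 235200 * p3 * p4 - 282240 * p3 * p6 - 21280 * p3 * p8 + 235200 * p4 * p5 + 127680 * p4 * p7 - 119168 * p5 * p6 - 7392 * p5 * p8 + 9856 * p6 * p7 + 32032 * p7 * p8)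
    (hW6 : 0 ≤ 48048 * p0 * p1 + 55440 * p0 * p3 + 15120 * p0 * p5 + 560 * p0 * p7 - 73920 * p1 * p2 - 90720 * p1 * p4 - 11200 * p1 * p6 + 560 * p1 * p8 + 84672 * p2 * p3 + 47040 * p2 * p5 - 11200 * p2 * p7 - 39200 * p3 * p4 + 47040 * p3 * p6 + 15120 * p3 * p8 - 39200 * p4 * p5 - 90720 * p4 * p7 + 84672 * p5 * p6 + 55440 * p5 * p8 - 73920 * p6 * p7 + 48048 * p7 * p8)
    (hW7 : 0 ≤ -54912 * p0 * p1 - 88704 * p0 * p3 - 40320 * p0 * p5 - 4480 * p0 * p7 + 118272 * p1 * p2 + 241920 * p1 * p4 + 89600 * p1 * p6 + 4480 * p1 * p8 - 225792 * p2 * p3 - 376320 * p2 * p5 - 89600 * p2 * p7 + 313600 * p3 * p4 + 376320 * p3 * p6 + 40320 * p3 * p8 - 313600 * p4 * p5 - 241920 * p4 * p7 + 225792 * p5 * p6 + 88704 * p5 * p8 - 118272 * p6 * p7 + 54912 * p7 * p8) :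
    0 < 1456 * p0 * p1 - 14448 * p0 * p3 + 6160 * p0 * p5 + 560 * p0 * p7 + 19264 * p1 * p2 - 36960 * p1 * p4 - 11200 * p1 * p6 + 560 * p1 * p8 + 34496 * p2 * p3 + 47040 * p2 * p5 - 11200 * p2 * p7 - 39200 * p3 * p4 + 47040 * p3 * p6 + 6160 * p3 * p8 - 39200 * p4 * p5 - 36960 * p4 * p7 + 34496 * p5 * p6 - 14448 * p5 * p8 + 19264 * p6 * p7 + 1456 * p7 * p8 ∧
    0 < -5824 * p0 * p1 + 33600 * p0 * p3 + 2240 * p0 * p5 - 1344 * p0 * p7 - 44800 * p1 * p2 - 13440 * p1 * p4 + 26880 * p1 * p6 + 1344 * p1 * p8 + 12544 * p2 * p3 - 112896 * p2 * p5 - 26880 * p2 * p7 + 94080 * p3 * p4 + 112896 * p3 * p6 - 2240 * p3 * p8 - 94080 * p4 * p5 + 13440 * p4 * p7 - 12544 * p5 * p6 - 33600 * p5 * p8 + 44800 * p6 * p7 + 5824 * p7 * p8 ∧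
    0 < 16016 * p0 * p1 - 40656 * p0 * p3 - 21840 * p0 * p5 - 1008 * p0 * p7 + 54208 * p1 * p2 + 131040 * p1 * p4 + 20160 * p1 * p6 - 1008 * p1 * p8 - 122304 * p2 * p3 - 84672 * p2 * p5 + 20160 * p2 * p7 + 70560 * p3 * p4 - 84672 * p3 * p6 - 21840 * p3 * p8 + 70560 * p4 * p5 + 131040 * p4 * p7 - 122304 * p5 * p6 - 40656 * p5 * p8 + 54208 * p6 * p7 + 16016 * p7 * p8 ∧
    0 < -32032 * p0 * p1 + 7392 * p0 * p3 + 21280 * p0 * p5 + 3360 * p0 * p7 - 9856 * p1 * p2 - 127680 * p1 * p4 - 67200 * p1 * p6 - 3360 * p1 * p8 + 119168 * p2 * p3 + 282240 * p2 * p5 + 67200 * p2 * p7 - 235200 * p3 * p4 - 282240 * p3 * p6 - 21280 * p3 * p8 + 235200 * p4 * p5 + 127680 * p4 * p7 - 119168 * p5 * p6 - 7392 * p5 * p8 + 9856 * p6 * p7 + 32032 * p7 * p8 ∧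
    0 < 48048 * p0 * p1 + 55440 * p0 * p3 + 15120 * p0 * p5 + 560 * p0 * p7 - 73920 * p1 * p2 - 90720 * p1 * p4 - 11200 * p1 * p6 + 560 * p1 * p8 + 84672 * p2 * p3 + 47040 * p2 * p5 - 11200 * p2 * p7 - 39200 * p3 * p4 + 47040 * p3 * p6 + 15120 * p3 * p8 - 39200 * p4 * p5 - 90720 * p4 * p7 + 84672 * p5 * p6 + 55440 * p5 * p8 - 73920 * p6 * p7 + 48048 * p7 * p8 ∧
    0 < -54912 * p0 * p1 - 88704 * p0 * p3 - 40320 * p0 * p5 - 4480 * p0 * p7 + 118272 * p1 * p2 + 241920 * p1 * p4 + 89600 * p1 * p6 + 4480 * p1 * p8 - 225792 * p2 * p3 - 376320 * p2 * p5 - 89600 * p2 * p7 + 313600 * p3 * p4 + 376320 * p3 * p6 + 40320 * p3 * p8 - 313600 * p4 * p5 - 241920 * p4 * p7 + 225792 * p5 * p6 + 88704 * p5 * p8 - 118272 * p6 * p7 + 54912 * p7 * p8 := by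
  refine ⟨lt_of_le_of_ne hW2 fun h => ?_, lt_of_le_of_ne hW3 fun h => ?_, lt_of_le_of_ne hW4 fun h => ?_, lt_of_le_of_ne hW5 fun h => ?_, lt_of_le_of_ne hW6 fun h => ?_, lt_of_le_of_ne hW7 fun h => ?_⟩
  · exact eight_w2 p0 p1 p2 p3 p4 p5 p6 p7 p8 hp0 hp1 hp2 hp3 hp4 hp5 hp6 hp7 hp8 hn1 hn2 hn3 hn4 hn5 hn6 hn7 hc1 hc2 hc3 hc4 hc5 hc6 hc7 hc8 hW0 hW1 hW2 hW3 hW4 hW5 hW6 hW7 h.symm
  · exact eight_w3 p0 p1 p2 p3 p4 p5 p6 p7 p8 hp0 hp1 hp2 hp3 hp4 hp5 hp6 hp7 hp8 hn1 hn2 hn3 hn4 hn5 hn6 hn7 hc1 hc2 hc3 hc4 hc5 hc6 hc7 hc8 hW0 hW1 hW2 hW3 hW4 hW5 hW6 hW7 h.symm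
  · exact eight_w4 p0 p1 p2 p3 p4 p5 p6 p7 p8 hp0 hp1 hp2 hp3 hp4 hp5 hp6 hp7 hp8 hn1 hn2 hn3 hn4 hn5 hn6 hn7 hc1 hc2 hc3 hc4 hc5 hc6 hc7 hc8 hW0 hW1 hW2 hW3 hW4 hW5 hW6 hW7 h.symm
  · exact eight_w5 p0 p1 p2 p3 p4 p5 p6 p7 p8 hp0 hp1 hp2 hp3 hp4 hp5 hp6 hp7 hp8 hn1 hn2 hn3 hn4 hn5 hn6 hn7 hc1 hc2 hc3 hc4 hc5 hc6 hc7 hc8 hW0 hW1 hW2 hW3 hW4 hW5 hW6 hW7 h.symm
  · exact eight_w6 p0 p1 p2 p3 p4 p5 p6 p7 p8 hp0 hp1 hp2 hp3 hp4 hp5 hp6 hp7 hp8 hn1 hn2 hn3 hn4 hn5 hn6 hn7 hc1 hc2 hc3 hc4 hc5 hc6 hc7 hc8 hW0 hW1 hW2 hW3 hW4 hW5 hW6 hW7 h.symm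
  · exact eight_w7 p0 p1 p2 p3 p4 p5 p6 p7 p8 hp0 hp1 hp2 hp3 hp4 hp5 hp6 hp7 hp8 hn1 hn2 hn3 hn4 hn5 hn6 hn7 hc1 hc2 hc3 hc4 hc5 hc6 hc7 hc8 hW0 hW1 hW2 hW3 hW4 hW5 hW6 hW7 h.symm

end Pool.Agent.Lib.MP_fe2d2a_anLP
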