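import Mathlib
import Pool.Agent.Lib.MP_fe2d2a_anLP.Cert72
import Pool.Agent.Lib.MP_fe2d2a_anLP.Cert73
import Pool.Agent.Lib.MP_fe2d2a_anLP.Cert74
import Pool.Agent.Lib.MP_fe2d2a_anLP.Cert75
import Pool.Agent.Lib.MP_fe2d2a_anLP.Cert76

/-!
# Evans problem, the algebra for `n = 7`
-/

set_option autoImplicit false
set_option maxRecDepth 100000

namespace Pool.Agent.Lib.MP_fe2d2a_anLP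

/-- The algebra for `n = 7`: `p j = E_j / binom(7, j)`, `E_j` the elementary symmetric functions; `c m`, `W m` are the
coefficients of `P` and of the velocity, up to positive constants. -/
theorem seven_alg (p0 p1 p2 p3 p4 p5 p6 p7 : ℝ) (hp0 : 0 < p0) (hp1 : 0 < p1) (hp2 : 0 < p2) (hp3 : 0 < p3) (hp4 : 0 < p4) (hp5 : 0 < p5) (hp6 : 0 < p6) (hp7 : 0 < p7)
    (hn1 : p0 * p2 ≤ p1 ^ 2)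
    (hn2 : p1 * p3 ≤ p2 ^ 2)
    (hn3 : p2 * p4 ≤ p3 ^ 2)
    (hn4 : p3 * p5 ≤ p4 ^ 2)
    (hn5 : p4 * p6 ≤ p5 ^ 2)
    (hn6 : p5 * p7 ≤ p6 ^ 2)
    (hc1 : 0 < -14 * p0 ^ 2 + 420 * p0 * p2 - 420 * p0 * p4 + 28 * p0 * p6 - 490 * p1 ^ 2 + 2940 * p1 * p3 - 588 * p1 * p5 - 28 * p1 * p7 - 2646 * p2 ^ 2 + 2940 * p2 * p4 + 588 * p2 * p6 - 2450 * p3 ^ 2 - 2940 * p3 * p5 + 420 * p3 * p7 + 2450 * p4 ^ 2 - 2940 * p4 * p6 + 2646 * p5 ^ 2 - 420 * p5 * p7 + 490 * p6 ^ 2 + 14 * p7 ^ 2)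
    (hc2 : 0 < 91 * p0 ^ 2 - 1806 * p0 * p2 + 770 * p0 * p4 + 70 * p0 * p6 + 2107 * p1 ^ 2 - 5390 * p1 * p3 - 1470 * p1 * p5 + 70 * p1 * p7 + 4851 * p2 ^ 2 + 7350 * p2 * p4 - 1470 * p2 * p6 - 6125 * p3 ^ 2 + 7350 * p3 * p5 + 770 * p3 * p7 - 6125 * p4 ^ 2 - 5390 * p4 * p6 + 4851 * p5 ^ 2 - 1806 * p5 * p7 + 2107 * p6 ^ 2 + 91 * p7 ^ 2)
    (hc3 : 0 < -364 * p0 ^ 2 + 4200 * p0 * p2 + 280 * p0 * p4 - 168 * p0 * p6 - 4900 * p1 ^ 2 - 1960 * p1 * p3 + 3528 * p1 * p5 + 168 * p1 * p7 + 1764 * p2 ^ 2 - 17640 * p2 * p4 - 3528 * p2 * p6 + 14700 * p3 ^ 2 + 17640 * p3 * p5 - 280 * p3 * p7 - 14700 * p4 ^ 2 + 1960 * p4 * p6 - 1764 * p5 ^ 2 - 4200 * p5 * p7 + 4900 * p6 ^ 2 + 364 * p7 ^ 2)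
    (hc4 : 0 < 1001 * p0 ^ 2 - 5082 * p0 * p2 - 2730 * p0 * p4 - 126 * p0 * p6 + 5929 * p1 ^ 2 + 19110 * p1 * p3 + 2646 * p1 * p5 - 126 * p1 * p7 - 17199 * p2 ^ 2 - 13230 * p2 * p4 + 2646 * p2 * p6 + 11025 * p3 ^ 2 - 13230 * p3 * p5 - 2730 * p3 * p7 + 11025 * p4 ^ 2 + 19110 * p4 * p6 - 17199 * p5 ^ 2 - 5082 * p5 * p7 + 5929 * p6 ^ 2 + 1001 * p7 ^ 2)
    (hc5 : 0 < -2002 * p0 ^ 2 + 924 * p0 * p2 + 2660 * p0 * p4 + 420 * p0 * p6 - 1078 * p1 ^ 2 - 18620 * p1 * p3 - 8820 * p1 * p5 - 420 * p1 * p7 + 16758 * p2 ^ 2 + 44100 * p2 * p4 + 8820 * p2 * p6 - 36750 * p3 ^ 2 - 44100 * p3 * p5 - 2660 * p3 * p7 + 36750 * p4 ^ 2 + 18620 * p4 * p6 - 16758 * p5 ^ 2 - 924 * p5 * p7 + 1078 * p6 ^ 2 + 2002 * p7 ^ 2)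
    (hc6 : 0 < 3003 * p0 ^ 2 + 6930 * p0 * p2 + 1890 * p0 * p4 + 70 * p0 * p6 - 8085 * p1 ^ 2 - 13230 * p1 * p3 - 1470 * p1 * p5 + 70 * p1 * p7 + 11907 * p2 ^ 2 + 7350 * p2 * p4 - 1470 * p2 * p6 - 6125 * p3 ^ 2 + 7350 * p3 * p5 + 1890 * p3 * p7 - 6125 * p4 ^ 2 - 13230 * p4 * p6 + 11907 * p5 ^ 2 + 6930 * p5 * p7 - 8085 * p6 ^ 2 + 3003 * p7 ^ 2)
    (hc7 : 0 < -3432 * p0 ^ 2 - 11088 * p0 * p2 - 5040 * p0 * p4 - 560 * p0 * p6 + 12936 * p1 ^ 2 + 35280 * p1 * p3 + 11760 * p1 * p5 + 560 * p1 * p7 - 31752 * p2 ^ 2 - 58800 * p2 * p4 - 11760 * p2 * p6 + 49000 * p3 ^ 2 + 58800 * p3 * p5 + 5040 * p3 * p7 - 49000 * p4 ^ 2 - 35280 * p4 * p6 + 31752 * p5 ^ 2 + 11088 * p5 * p7 - 12936 * p6 ^ 2 + 3432 * p7 ^ 2)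
    (hW0 : 0 < 14 * p0 * p1 - 210 * p0 * p3 + 210 * p0 * p5 - 14 * p0 * p7 + 294 * p1 * p2 - 1470 * p1 * p4 + 490 * p1 * p6 + 1470 * p2 * p3 - 2646 * p2 * p5 + 210 * p2 * p7 + 2450 * p3 * p4 - 1470 * p3 * p6 + 1470 * p4 * p5 - 210 * p4 * p7 + 294 * p5 * p6 + 14 * p6 * p7)
    (hW1 : 0 < -168 * p0 * p1 + 1680 * p0 * p3 - 840 * p0 * p5 - 2352 * p1 * p2 + 5880 * p1 * p4 - 5880 * p2 * p3 + 840 * p2 * p7 - 5880 * p3 * p6 + 5880 * p4 * p5 - 1680 * p4 * p7 + 2352 * p5 * p6 + 168 * p6 * p7)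
    (hW2 : 0 ≤ 924 * p0 * p1 - 5460 * p0 * p3 + 420 * p0 * p5 + 84 * p0 * p7 + 7644 * p1 * p2 - 2940 * p1 * p4 - 2940 * p1 * p6 + 2940 * p2 * p3 + 15876 * p2 * p5 + 420 * p2 * p7 - 14700 * p3 * p4 - 2940 * p3 * p6 + 2940 * p4 * p5 - 5460 * p4 * p7 + 7644 * p5 * p6 + 924 * p6 * p7)
    (hW3 : 0 ≤ -3080 * p0 * p1 + 8400 * p0 * p3 + 2520 * p0 * p5 - 11760 * p1 * p2 - 17640 * p1 * p4 + 17640 * p2 * p3 - 2520 * p2 * p7 + 17640 * p3 * p6 - 17640 * p4 * p5 - 8400 * p4 * p7 + 11760 * p5 * p6 + 3080 * p6 * p7)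
    (hW4 : 0 ≤ 6930 * p0 * p1 - 3150 * p0 * p3 - 3570 * p0 * p5 - 210 * p0 * p7 + 4410 * p1 * p2 + 24990 * p1 * p4 + 7350 * p1 * p6 - 24990 * p2 * p3 - 39690 * p2 * p5 - 3570 * p2 * p7 + 36750 * p3 * p4 + 24990 * p3 * p6 - 24990 * p4 * p5 - 3150 * p4 * p7 + 4410 * p5 * p6 + 6930 * p6 * p7)
    (hW5 : 0 ≤ -11088 * p0 * p1 - 10080 * p0 * p3 - 1680 * p0 * p5 + 14112 * p1 * p2 + 11760 * p1 * p4 - 11760 * p2 * p3 + 1680 * p2 * p7 - 11760 * p3 * p6 + 11760 * p4 * p5 + 10080 * p4 * p7 - 14112 * p5 * p6 + 11088 * p6 * p7)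
    (hW6 : 0 ≤ 12936 * p0 * p1 + 17640 * p0 * p3 + 5880 * p0 * p5 + 280 * p0 * p7 - 24696 * p1 * p2 - 41160 * p1 * p4 - 9800 * p1 * p6 + 41160 * p2 * p3 + 52920 * p2 * p5 + 5880 * p2 * p7 - 49000 * p3 * p4 - 41160 * p3 * p6 + 41160 * p4 * p5 + 17640 * p4 * p7 - 24696 * p5 * p6 + 12936 * p6 * p7) :
    0 < 924 * p0 * p1 - 5460 * p0 * p3 + 420 * p0 * p5 + 84 * p0 * p7 + 7644 * p1 * p2 - 2940 * p1 * p4 - 2940 * p1 * p6 + 2940 * p2 * p3 + 15876 * p2 * p5 + 420 * p2 * p7 - 14700 * p3 * p4 - 2940 * p3 * p6 + 2940 * p4 * p5 - 5460 * p4 * p7 + 7644 * p5 * p6 + 924 * p6 * p7 ∧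
    0 < -3080 * p0 * p1 + 8400 * p0 * p3 + 2520 * p0 * p5 - 11760 * p1 * p2 - 17640 * p1 * p4 + 17640 * p2 * p3 - 2520 * p2 * p7 + 17640 * p3 * p6 - 17640 * p4 * p5 - 8400 * p4 * p7 + 11760 * p5 * p6 + 3080 * p6 * p7 ∧
    0 < 6930 * p0 * p1 - 3150 * p0 * p3 - 3570 * p0 * p5 - 210 * p0 * p7 + 4410 * p1 * p2 + 24990 * p1 * p4 + 7350 * p1 * p6 - 24990 * p2 * p3 - 39690 * p2 * p5 - 3570 * p2 * p7 + 36750 * p3 * p4 + 24990 * p3 * p6 - 24990 * p4 * p5 - 3150 * p4 * p7 + 4410 * p5 * p6 + 6930 * p6 * p7 ∧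
    0 < -11088 * p0 * p1 - 10080 * p0 * p3 - 1680 * p0 * p5 + 14112 * p1 * p2 + 11760 * p1 * p4 - 11760 * p2 * p3 + 1680 * p2 * p7 - 11760 * p3 * p6 + 11760 * p4 * p5 + 10080 * p4 * p7 - 14112 * p5 * p6 + 11088 * p6 * p7 ∧
    0 < 12936 * p0 * p1 + 17640 * p0 * p3 + 5880 * p0 * p5 + 280 * p0 * p7 - 24696 * p1 * p2 - 41160 * p1 * p4 - 9800 * p1 * p6 + 41160 * p2 * p3 + 52920 * p2 * p5 + 5880 * p2 * p7 - 49000 * p3 * p4 - 41160 * p3 * p6 + 41160 * p4 * p5 + 17640 * p4 * p7 - 24696 * p5 * p6 + 12936 * p6 * p7 := by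
  refine ⟨lt_of_le_of_ne hW2 fun h => ?_, lt_of_le_of_ne hW3 fun h => ?_, lt_of_le_of_ne hW4 fun h => ?_, lt_of_le_of_ne hW5 fun h => ?_, lt_of_le_of_ne hW6 fun h => ?_⟩
  · exact seven_w2 p0 p1 p2 p3 p4 p5 p6 p7 hp0 hp1 hp2 hp3 hp4 hp5 hp6 hp7 hn1 hn2 hn3 hn4 hn5 hn6 hc1 hc2 hc3 hc4 hc5 hc6 hc7 hW0 hW1 hW2 hW3 hW4 hW5 hW6 h.symm
  · exact seven_w3 p0 p1 p2 p3 p4 p5 p6 p7 hp0 hp1 hp2 hp3 hp4 hp5 hp6 hp7 hn1 hn2 hn3 hn4 hn5 hn6 hc1 hc2 hc3 hc4 hc5 hc6 hc7 hW0 hW1 hW2 hW3 hW4 hW5 hW6 h.symm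
  · exact seven_w4 p0 p1 p2 p3 p4 p5 p6 p7 hp0 hp1 hp2 hp3 hp4 hp5 hp6 hp7 hn1 hn2 hn3 hn4 hn5 hn6 hc1 hc2 hc3 hc4 hc5 hc6 hc7 hW0 hW1 hW2 hW3 hW4 hW5 hW6 h.symm
  · exact seven_w5 p0 p1 p2 p3 p4 p5 p6 p7 hp0 hp1 hp2 hp3 hp4 hp5 hp6 hp7 hn1 hn2 hn3 hn4 hn5 hn6 hc1 hc2 hc3 hc4 hc5 hc6 hc7 hW0 hW1 hW2 hW3 hW4 hW5 hW6 h.symm
  · exact seven_w6 p0 p1 p2 p3 p4 p5 p6 p7 hp0 hp1 hp2 hp3 hp4 hp5 hp6 hp7 hn1 hn2 hn3 hn4 hn5 hn6 hc1 hc2 hc3 hc4 hc5 hc6 hc7 hW0 hW1 hW2 hW3 hW4 hW5 hW6 h.symm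

end Pool.Agent.Lib.MP_fe2d2a_anLP
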