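import Mathlib

/-!
# Sparse integer polynomials evaluated in the kernel

A certificate is a sum of products of quadratic forms and monomials with natural coefficients. It is expanded to a sorted
list of monomials; `check_false` says that a certificate of the form `S + Q * W = 0`, `S` positive, excludes `W = 0`.
-/

set_option autoImplicit false

namespace Pool.Agent.Lib.MP_fe2d2a_anLP

/-- Sparse polynomials: lists of monomials with key `k` (the exponents in base 16) and coefficient `p - n`. -/
inductive P where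
  | nil : P
  | cons (k p n : ℕ) (t : P) : P

/-- Forms, as trees of monomials with coefficient `c` or `-c`. -/
inductive T where
  | p (k c : ℕ) : T
  | n (k c : ℕ) : T
  | b (l r : T) : T

/-- Certificates: sums of products of monomials, forms (given by their index) and squares of linear forms. -/
inductive C where
  | m (k c : ℕ) : C
  | a (x y : C) : C
  | q (i : ℕ) (x : C) : C
  | s (t : T) (x : C) : C

/-! ### Computation -/

noncomputable def addA (k p n : ℕ) (r : P → P) (g : P) : P :=
  P.rec (motive := fun _ => P) (P.cons k p n (r P.nil))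
    (fun k' p' n' g' ih => Bool.rec (motive := fun _ => P)
      (Bool.rec (motive := fun _ => P) (P.cons k' p' n' ih)
        (P.cons k p n (r (P.cons k' p' n' g'))) (Nat.ble k' k))
      (P.cons k (Nat.add p p') (Nat.add n n') (r g')) (Nat.beq k k')) g

noncomputable def add (f : P) : P → P :=
  P.rec (motive := fun _ => P → P) (fun g => g) (fun k p n _ ih => addA k p n ih) f

noncomputable def shp (k c : ℕ) (f : P) : P :=
  P.rec (motive := fun _ => P) P.nil
    (fun k' p n _ ih => P.cons (Nat.add k k') (Nat.mul c p) (Nat.mul c n) ih) f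

noncomputable def shn (k c : ℕ) (f : P) : P :=
  P.rec (motive := fun _ => P) P.nil
    (fun k' p n _ ih => P.cons (Nat.add k k') (Nat.mul c n) (Nat.mul c p) ih) f

noncomputable def mulT (t : T) : P → P :=
  T.rec (motive := fun _ => P → P) (fun k c f => shp k c f) (fun k c f => shn k c f)
    (fun _ _ x y f => add (x f) (y f)) t

noncomputable def norm (Q : ℕ → T) (x : C) : P :=
  C.rec (motive := fun _ => P) (fun k c => P.cons k c 0 P.nil) (fun _ _ x y => add x y)
    (fun i _ x => mulT (Q i) x) (fun t _ x => mulT t (mulT t x)) x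

noncomputable def isZ (f : P) : Bool :=
  P.rec (motive := fun _ => Bool) true
    (fun _ p n _ ih => Bool.rec (motive := fun _ => Bool) false ih (Nat.beq p n)) f

/-! ### Degrees -/

/-- The first `n` digits in base 16 are at most `D`. -/
def dg : ℕ → ℕ → ℕ → Prop
  | 0, _, _ => True
  | n + 1, D, k => k % 16 ≤ D ∧ dg n D (k / 16)

def dgb : ℕ → ℕ → ℕ → Bool
  | 0, _, _ => true
  | n + 1, D, k => Nat.ble (k % 16) D && dgb n D (k / 16)

theorem dg_of_dgb : ∀ (n D k : ℕ), dgb n D k = true → dg n D k
  | 0, _, _, _ => trivial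
  | n + 1, D, k, h => by
    simp only [dgb, Bool.and_eq_true] at h
    exact ⟨Nat.le_of_ble_eq_true h.1, dg_of_dgb n D _ h.2⟩

theorem dg_mono (n : ℕ) : ∀ (A B k : ℕ), A ≤ B → dg n A k → dg n B k := by
  induction n with
  | zero => intros; trivial
  | succ n ih => exact fun A B k h hk => ⟨hk.1.trans h, ih A B _ h hk.2⟩

theorem dg_add (n : ℕ) : ∀ (A B a b : ℕ), A + B < 16 → dg n A a → dg n B b → dg n (A + B) (a + b) := by
  induction n with
  | zero => intros; trivial
  | succ n ih =>
    intro A B a b hAB ha hb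
    obtain ⟨ha1, ha2⟩ := ha
    obtain ⟨hb1, hb2⟩ := hb
    have h1 : (a + b) % 16 = a % 16 + b % 16 := by omega
    have h2 : (a + b) / 16 = a / 16 + b / 16 := by omega
    refine ⟨by rw [h1]; omega, ?_⟩
    rw [h2]
    exact ih A B _ _ hAB ha2 hb2

/-- Degrees of polynomials. -/
def dP (n D : ℕ) : P → Prop
  | P.nil => True
  | P.cons k _ _ t => dg n D k ∧ dP n D t

def dPb (n D : ℕ) : P → Bool
  | P.nil => true
  | P.cons k _ _ t => dgb n D k && dPb n D t

theorem dP_of_dPb (n D : ℕ) : ∀ f : P, dPb n D f = true → dP n D f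
  | P.nil, _ => trivial
  | P.cons k p q t, h => by
    simp only [dPb, Bool.and_eq_true] at h
    exact ⟨dg_of_dgb n D k h.1, dP_of_dPb n D t h.2⟩

/-- Degrees of forms. -/
def dT (n D : ℕ) : T → Prop
  | T.p k _ => dg n D k
  | T.n k _ => dg n D k
  | T.b l r => dT n D l ∧ dT n D r

def dTb (n D : ℕ) : T → Bool
  | T.p k _ => dgb n D k
  | T.n k _ => dgb n D k
  | T.b l r => dTb n D l && dTb n D r

theorem dT_of_dTb (n D : ℕ) : ∀ f : T, dTb n D f = true → dT n D f
  | T.p k _, h => dg_of_dgb n D k h
  | T.n k _, h => dg_of_dgb n D k h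
  | T.b l r, h => by
    simp only [dTb, Bool.and_eq_true] at h
    exact ⟨dT_of_dTb n D l h.1, dT_of_dTb n D r h.2⟩

/-- The degrees of a certificate (`n` variables, degree at most `D`, forms of degree at most `2`). -/
def okC (n : ℕ) (Q : ℕ → T) : ℕ → C → Bool
  | D, C.m k _ => dgb n D k
  | D, C.a x y => okC n Q D x && okC n Q D y
  | D, C.q i x => Nat.ble 2 D && (dTb n 2 (Q i) && okC n Q (D - 2) x)
  | D, C.s t x => Nat.ble 2 D && (dTb n 1 t && okC n Q (D - 2) x)

/-! ### Values -/

/-- Value of a monomial. -/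
noncomputable def evK : List ℝ → ℕ → ℝ
  | [], _ => 1
  | v :: vs, k => v ^ (k % 16) * evK vs (k / 16)

noncomputable def evP (vs : List ℝ) : P → ℝ
  | P.nil => 0
  | P.cons k p n t => ((p : ℝ) - n) * evK vs k + evP vs t

noncomputable def evT (vs : List ℝ) : T → ℝ
  | T.p k c => (c : ℝ) * evK vs k
  | T.n k c => -((c : ℝ) * evK vs k)
  | T.b l r => evT vs l + evT vs r

noncomputable def evC (vs : List ℝ) (Q : ℕ → T) : C → ℝ
  | C.m k c => (c : ℝ) * evK vs k
  | C.a x y => evC vs Q x + evC vs Q y
  | C.q i x => evT vs (Q i) * evC vs Q x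
  | C.s t x => evT vs t * (evT vs t * evC vs Q x)

theorem evK_add (vs : List ℝ) : ∀ (A B a b : ℕ), A + B < 16 → dg vs.length A a → dg vs.length B b →
    evK vs (a + b) = evK vs a * evK vs b := by
  induction vs with
  | nil => intros; simp [evK]
  | cons v vs ih =>
    intro A B a b hAB ha hb
    obtain ⟨ha1, ha2⟩ := ha
    obtain ⟨hb1, hb2⟩ := hb
    have h1 : (a + b) % 16 = a % 16 + b % 16 := by omega
    have h2 : (a + b) / 16 = a / 16 + b / 16 := by omega
    simp only [evK]
    rw [h1, h2, ih A B _ _ hAB ha2 hb2, pow_add]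
    ring

theorem evK_pos (vs : List ℝ) (h : ∀ v ∈ vs, 0 < v) : ∀ k, 0 < evK vs k := by
  induction vs with
  | nil => intro k; simp [evK]
  | cons v vs ih =>
    intro k
    have h1 : 0 < v := h v List.mem_cons_self
    have h2 := ih (fun u hu => h u (List.mem_cons_of_mem _ hu)) (k / 16)
    simp only [evK]
    positivity

theorem addA_spec (vs : List ℝ) (k p n : ℕ) (r : P → P) (x : ℝ)
    (hr : ∀ g, evP vs (r g) = x + evP vs g) (g : P) :
    evP vs (addA k p n r g) = (((p : ℝ) - n) * evK vs k + x) + evP vs g := by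
  induction g with
  | nil =>
    show ((p : ℝ) - n) * evK vs k + evP vs (r P.nil) = _
    rw [hr]
    simp only [evP]
    ring
  | cons k' p' n' g' ih =>
    have e : addA k p n r (P.cons k' p' n' g') = Bool.rec (motive := fun _ => P)
      (Bool.rec (motive := fun _ => P) (P.cons k' p' n' (addA k p n r g'))
        (P.cons k p n (r (P.cons k' p' n' g'))) (Nat.ble k' k))
      (P.cons k (Nat.add p p') (Nat.add n n') (r g')) (Nat.beq k k') := rfl
    rw [e]
    cases h : Nat.beq k k' with
    | true =>
      have h' := Nat.eq_of_beq_eq_true h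
      show ((Nat.add p p' : ℕ) - (Nat.add n n' : ℕ) : ℝ) * evK vs k + evP vs (r g') = _
      rw [hr, h', Nat.add_eq, Nat.add_eq]
      simp only [evP]
      push_cast
      ring
    | false =>
      cases h2 : Nat.ble k' k with
      | true =>
        show ((p : ℝ) - n) * evK vs k + evP vs (r (P.cons k' p' n' g')) = _
        rw [hr]
        ring
      | false =>
        show ((p' : ℝ) - n') * evK vs k' + evP vs (addA k p n r g') = _
        rw [ih]
        simp only [evP]
        ring

theorem add_spec (vs : List ℝ) (f : P) : ∀ g : P, evP vs (add f g) = evP vs f + evP vs g := by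
  induction f with
  | nil => intro g; show evP vs g = _; simp [evP]
  | cons k p n t ih =>
    intro g
    show evP vs (addA k p n (add t) g) = _
    rw [addA_spec vs k p n (add t) (evP vs t) ih g]
    simp [evP]

theorem addA_dP (N D k p n : ℕ) (r : P → P) (hk : dg N D k)
    (hr : ∀ g, dP N D g → dP N D (r g)) (g : P) (hg : dP N D g) : dP N D (addA k p n r g) := by
  induction g with
  | nil => exact ⟨hk, hr _ trivial⟩
  | cons k' p' n' g' ih =>
    have e : addA k p n r (P.cons k' p' n' g') = Bool.rec (motive := fun _ => P)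
      (Bool.rec (motive := fun _ => P) (P.cons k' p' n' (addA k p n r g'))
        (P.cons k p n (r (P.cons k' p' n' g'))) (Nat.ble k' k))
      (P.cons k (Nat.add p p') (Nat.add n n') (r g')) (Nat.beq k k') := rfl
    rw [e]
    cases h : Nat.beq k k' with
    | true => exact ⟨hk, hr _ hg.2⟩
    | false =>
      cases h2 : Nat.ble k' k with
      | true => exact ⟨hk, hr _ hg⟩
      | false => exact ⟨hg.1, ih hg.2⟩

theorem add_dP (N D : ℕ) (f : P) (hf : dP N D f) : ∀ g : P, dP N D g → dP N D (add f g) := by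
  induction f with
  | nil => exact fun g hg => hg
  | cons k p n t ih =>
    intro g hg
    exact addA_dP N D k p n (add t) hf.1 (ih hf.2) g hg

theorem shp_spec (vs : List ℝ) (A B k c : ℕ) (hAB : A + B < 16) (hk : dg vs.length A k) (f : P)
    (hf : dP vs.length B f) :
    evP vs (shp k c f) = ((c : ℝ) * evK vs k) * evP vs f ∧ dP vs.length (A + B) (shp k c f) := by
  induction f with
  | nil => exact ⟨by show (0 : ℝ) = _; simp [evP], trivial⟩
  | cons k' p n t ih =>
    obtain ⟨h1, h2⟩ := ih hf.2
    constructor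
    · show ((Nat.mul c p : ℕ) - (Nat.mul c n : ℕ) : ℝ) * evK vs (Nat.add k k') + evP vs (shp k c t) = _
      rw [h1, Nat.add_eq, evK_add vs A B k k' hAB hk hf.1, Nat.mul_eq, Nat.mul_eq]
      simp only [evP]
      push_cast
      ring
    · exact ⟨dg_add _ A B k k' hAB hk hf.1, h2⟩

theorem shn_spec (vs : List ℝ) (A B k c : ℕ) (hAB : A + B < 16) (hk : dg vs.length A k) (f : P)
    (hf : dP vs.length B f) :
    evP vs (shn k c f) = (-((c : ℝ) * evK vs k)) * evP vs f ∧ dP vs.length (A + B) (shn k c f) := by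
  induction f with
  | nil => exact ⟨by show (0 : ℝ) = _; simp [evP], trivial⟩
  | cons k' p n t ih =>
    obtain ⟨h1, h2⟩ := ih hf.2
    constructor
    · show ((Nat.mul c n : ℕ) - (Nat.mul c p : ℕ) : ℝ) * evK vs (Nat.add k k') + evP vs (shn k c t) = _
      rw [h1, Nat.add_eq, evK_add vs A B k k' hAB hk hf.1, Nat.mul_eq, Nat.mul_eq]
      simp only [evP]
      push_cast
      ring
    · exact ⟨dg_add _ A B k k' hAB hk hf.1, h2⟩

theorem mulT_spec (vs : List ℝ) (A B : ℕ) (hAB : A + B < 16) (t : T) (ht : dT vs.length A t) (f : P)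
    (hf : dP vs.length B f) :
    evP vs (mulT t f) = evT vs t * evP vs f ∧ dP vs.length (A + B) (mulT t f) := by
  induction t with
  | p k c => exact shp_spec vs A B k c hAB ht f hf
  | n k c => exact shn_spec vs A B k c hAB ht f hf
  | b l r ihl ihr =>
    obtain ⟨h1, h2⟩ := ihl ht.1
    obtain ⟨h3, h4⟩ := ihr ht.2
    constructor
    · show evP vs (add (mulT l f) (mulT r f)) = _
      rw [add_spec, h1, h3]
      simp only [evT]
      ring
    · exact add_dP _ _ _ h2 _ h4

theorem norm_spec (vs : List ℝ) (Q : ℕ → T) (x : C) : ∀ D, D < 16 → okC vs.length Q D x = true →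
    evP vs (norm Q x) = evC vs Q x ∧ dP vs.length D (norm Q x) := by
  induction x with
  | m k c =>
    intro D _ h
    exact ⟨by show ((c : ℝ) - (0 : ℕ)) * evK vs k + 0 = (c : ℝ) * evK vs k; push_cast; ring,
      dg_of_dgb _ _ _ h, trivial⟩
  | a x y ihx ihy =>
    intro D hD h
    simp only [okC, Bool.and_eq_true] at h
    obtain ⟨h1, h2⟩ := ihx D hD h.1
    obtain ⟨h3, h4⟩ := ihy D hD h.2
    constructor
    · show evP vs (add (norm Q x) (norm Q y)) = _
      rw [add_spec, h1, h3]
      rfl
    · exact add_dP _ _ _ h2 _ h4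
  | q i x ih =>
    intro D hD h
    simp only [okC, Bool.and_eq_true] at h
    obtain ⟨h0, h1, h2⟩ := h
    have h0' := Nat.le_of_ble_eq_true h0
    obtain ⟨h3, h4⟩ := ih (D - 2) (by omega) h2
    obtain ⟨h5, h6⟩ := mulT_spec vs 2 (D - 2) (by omega) (Q i) (dT_of_dTb _ _ _ h1) _ h4
    constructor
    · show evP vs (mulT (Q i) (norm Q x)) = _
      rw [h5, h3]
      rfl
    · have e : 2 + (D - 2) = D := by omega
      rw [e] at h6
      exact h6
  | s t x ih =>
    intro D hD h
    simp only [okC, Bool.and_eq_true] at h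
    obtain ⟨h0, h1, h2⟩ := h
    have h0' := Nat.le_of_ble_eq_true h0
    have ht := dT_of_dTb _ _ _ h1
    obtain ⟨h3, h4⟩ := ih (D - 2) (by omega) h2
    obtain ⟨h5, h6⟩ := mulT_spec vs 1 (D - 2) (by omega) t ht _ h4
    obtain ⟨h7, h8⟩ := mulT_spec vs 1 (1 + (D - 2)) (by omega) t ht _ h6
    constructor
    · show evP vs (mulT t (mulT t (norm Q x))) = _
      rw [h7, h5, h3]
      rfl
    · have e : 1 + (1 + (D - 2)) = D := by omega
      rw [e] at h8
      exact h8

theorem isZ_spec (vs : List ℝ) (f : P) (h : isZ f = true) : evP vs f = 0 := by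
  induction f with
  | nil => rfl
  | cons k p n t ih =>
    have e : isZ (P.cons k p n t) = Bool.rec (motive := fun _ => Bool) false (isZ t) (Nat.beq p n) := rfl
    rw [e] at h
    cases h1 : Nat.beq p n with
    | false => rw [h1] at h; exact absurd h (by simp)
    | true =>
      rw [h1] at h
      have h2 := Nat.eq_of_beq_eq_true h1
      simp only [evP]
      rw [ih h, h2]
      ring

/-! ### Positivity -/

theorem evC_nonneg (vs : List ℝ) (hv : ∀ v ∈ vs, 0 < v) (Q : ℕ → T) (hQ : ∀ i, 0 ≤ evT vs (Q i)) (x : C) :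
    0 ≤ evC vs Q x := by
  induction x with
  | m k c => exact mul_nonneg (Nat.cast_nonneg c) (evK_pos vs hv k).le
  | a x y ihx ihy => exact add_nonneg ihx ihy
  | q i x ih => exact mul_nonneg (hQ i) ih
  | s t x ih =>
    show 0 ≤ evT vs t * (evT vs t * evC vs Q x)
    rw [← mul_assoc]
    exact mul_nonneg (mul_self_nonneg _) ih

/-- The certificate contains a strictly positive term. -/
def posb (st : ℕ → Bool) : C → Bool
  | C.m _ c => Nat.blt 0 c
  | C.a x y => posb st x || posb st y
  | C.q i x => st i && posb st x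
  | C.s _ _ => false

theorem evC_pos (vs : List ℝ) (hv : ∀ v ∈ vs, 0 < v) (Q : ℕ → T) (hQ : ∀ i, 0 ≤ evT vs (Q i))
    (st : ℕ → Bool) (hst : ∀ i, st i = true → 0 < evT vs (Q i)) (x : C) (hx : posb st x = true) :
    0 < evC vs Q x := by
  induction x with
  | m k c =>
    have h : 0 < c := by
      simp only [posb, Nat.blt_eq] at hx
      exact hx
    exact mul_pos (Nat.cast_pos.2 h) (evK_pos vs hv k)
  | a x y ihx ihy =>
    simp only [posb, Bool.or_eq_true] at hx
    rcases hx with hx | hx
    · exact add_pos_of_pos_of_nonneg (ihx hx) (evC_nonneg vs hv Q hQ y)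
    · exact add_pos_of_nonneg_of_pos (evC_nonneg vs hv Q hQ x) (ihy hx)
  | q i x ih =>
    simp only [posb, Bool.and_eq_true] at hx
    exact mul_pos (hst i hx.1) (ih hx.2)
  | s t x ih => exact absurd hx (by simp [posb])

/-- Lookup. -/
def look : List T → ℕ → T
  | [], _ => T.p 0 0
  | t :: _, 0 => t
  | _ :: L, i + 1 => look L i

theorem look_nonneg (vs : List ℝ) : ∀ (L : List T), (∀ t ∈ L, 0 ≤ evT vs t) → ∀ i, 0 ≤ evT vs (look L i)
  | [], _, i => by simp [look, evT]
  | t :: L, h, 0 => h t List.mem_cons_self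
  | t :: L, h, i + 1 => look_nonneg vs L (fun s hs => h s (List.mem_cons_of_mem _ hs)) i

theorem look_pos (vs : List ℝ) : ∀ (L M : List T), (∀ t ∈ L, 0 < evT vs t) → ∀ i, Nat.blt i L.length = true →
    0 < evT vs (look (L ++ M) i)
  | [], _, _, i, hi => by simp [Nat.blt_eq] at hi
  | t :: L, _, h, 0, _ => h t List.mem_cons_self
  | t :: L, M, h, i + 1, hi => look_pos vs L M (fun s hs => h s (List.mem_cons_of_mem _ hs)) i (by
    simp only [Nat.blt_eq, List.length_cons] at hi ⊢
    omega)

/-- All checks: `L` are the forms which are positive, `M` those which are nonnegative. -/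
noncomputable def check (N D l : ℕ) (Q : List T) (W : T) (R : P) (S : C) : Bool :=
  (Nat.blt D 16 && Nat.ble 2 D) && ((dTb N 2 W && dPb N (D - 2) R) &&
    ((okC N (look Q) D S && posb (fun i => Nat.blt i l) S) && isZ (add (mulT W R) (norm (look Q) S))))

theorem check_false (D : ℕ) (vs : List ℝ) (hv : ∀ v ∈ vs, 0 < v) (L M : List T)
    (hL : ∀ t ∈ L, 0 < evT vs t) (hM : ∀ t ∈ M, 0 ≤ evT vs t) (W : T) (hW : evT vs W = 0) (R : P) (S : C)
    (h : check vs.length D L.length (L ++ M) W R S = true) : False := by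
  simp only [check, Bool.and_eq_true] at h
  obtain ⟨⟨h1, h2⟩, ⟨h3, h4⟩, ⟨h5, h6⟩, h7⟩ := h
  have h1' : D < 16 := by simpa [Nat.blt_eq] using h1
  have h2' := Nat.le_of_ble_eq_true h2
  have hQ : ∀ i, 0 ≤ evT vs (look (L ++ M) i) := look_nonneg vs _ (fun t ht => by
    rcases List.mem_append.1 ht with ht | ht
    · exact (hL t ht).le
    · exact hM t ht)
  have hp := evC_pos vs hv _ hQ _ (fun i hi => look_pos vs L M hL i hi) S h6
  obtain ⟨e1, _⟩ := norm_spec vs _ S D h1' h5
  obtain ⟨e2, _⟩ := mulT_spec vs 2 (D - 2) (by omega) W (dT_of_dTb _ _ _ h3) R (dP_of_dPb _ _ _ h4)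
  have e3 := isZ_spec vs _ h7
  rw [add_spec, e1, e2, hW, zero_mul, zero_add] at e3
  exact absurd e3 hp.ne'

end Pool.Agent.Lib.MP_fe2d2a_anLP
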