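import Mathlib
import Pool.Agent.Lib.MP_fe2d2a_anLP.Refl

/-!
# Evans problem: the quadratic forms for `n = 7`
-/

set_option autoImplicit false
set_option maxRecDepth 100000
set_option linter.unusedSimpArgs false

namespace Pool.Agent.Lib.MP_fe2d2a_anLP

def t7c1 : T :=
  T.b (T.b (T.b (T.b (T.n 536870912 14) (T.p 269484032 420)) (T.b (T.n 268439552 420) (T.b (T.p 268435472 28) (T.n 33554432 490)))) (T.b (T.b (T.p 16842752 2940) (T.n 16777472 588)) (T.b (T.n 16777217 28) (T.b (T.n 2097152 2646) (T.p 1052672 2940))))) (T.b (T.b (T.b (T.p 1048592 588) (T.n 131072 2450)) (T.b (T.n 65792 2940) (T.b (T.p 65537 420) (T.p 8192 2450)))) (T.b (T.b (T.n 4112 2940) (T.p 512 2646)) (T.b (T.n 257 420) (T.b (T.p 32 490) (T.p 2 14)))))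

def t7c2 : T :=
  T.b (T.b (T.b (T.b (T.p 536870912 91) (T.n 269484032 1806)) (T.b (T.p 268439552 770) (T.b (T.p 268435472 70) (T.p 33554432 2107)))) (T.b (T.b (T.n 16842752 5390) (T.n 16777472 1470)) (T.b (T.p 16777217 70) (T.b (T.p 2097152 4851) (T.p 1052672 7350))))) (T.b (T.b (T.b (T.n 1048592 1470) (T.n 131072 6125)) (T.b (T.p 65792 7350) (T.b (T.p 65537 770) (T.n 8192 6125)))) (T.b (T.b (T.n 4112 5390) (T.p 512 4851)) (T.b (T.n 257 1806) (T.b (T.p 32 2107) (T.p 2 91)))))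

def t7c3 : T :=
  T.b (T.b (T.b (T.b (T.n 536870912 364) (T.p 269484032 4200)) (T.b (T.p 268439552 280) (T.b (T.n 268435472 168) (T.n 33554432 4900)))) (T.b (T.b (T.n 16842752 1960) (T.p 16777472 3528)) (T.b (T.p 16777217 168) (T.b (T.p 2097152 1764) (T.n 1052672 17640))))) (T.b (T.b (T.b (T.n 1048592 3528) (T.p 131072 14700)) (T.b (T.p 65792 17640) (T.b (T.n 65537 280) (T.n 8192 14700)))) (T.b (T.b (T.p 4112 1960) (T.n 512 1764)) (T.b (T.n 257 4200) (T.b (T.p 32 4900) (T.p 2 364)))))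

def t7c4 : T :=
  T.b (T.b (T.b (T.b (T.p 536870912 1001) (T.n 269484032 5082)) (T.b (T.n 268439552 2730) (T.b (T.n 268435472 126) (T.p 33554432 5929)))) (T.b (T.b (T.p 16842752 19110) (T.p 16777472 2646)) (T.b (T.n 16777217 126) (T.b (T.n 2097152 17199) (T.n 1052672 13230))))) (T.b (T.b (T.b (T.p 1048592 2646) (T.p 131072 11025)) (T.b (T.n 65792 13230) (T.b (T.n 65537 2730) (T.p 8192 11025)))) (T.b (T.b (T.p 4112 19110) (T.n 512 17199)) (T.b (T.n 257 5082) (T.b (T.p 32 5929) (T.p 2 1001)))))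

def t7c5 : T :=
  T.b (T.b (T.b (T.b (T.n 536870912 2002) (T.p 269484032 924)) (T.b (T.p 268439552 2660) (T.b (T.p 268435472 420) (T.n 33554432 1078)))) (T.b (T.b (T.n 16842752 18620) (T.n 16777472 8820)) (T.b (T.n 16777217 420) (T.b (T.p 2097152 16758) (T.p 1052672 44100))))) (T.b (T.b (T.b (T.p 1048592 8820) (T.n 131072 36750)) (T.b (T.n 65792 44100) (T.b (T.n 65537 2660) (T.p 8192 36750)))) (T.b (T.b (T.p 4112 18620) (T.n 512 16758)) (T.b (T.n 257 924) (T.b (T.p 32 1078) (T.p 2 2002)))))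

def t7c6 : T :=
  T.b (T.b (T.b (T.b (T.p 536870912 3003) (T.p 269484032 6930)) (T.b (T.p 268439552 1890) (T.b (T.p 268435472 70) (T.n 33554432 8085)))) (T.b (T.b (T.n 16842752 13230) (T.n 16777472 1470)) (T.b (T.p 16777217 70) (T.b (T.p 2097152 11907) (T.p 1052672 7350))))) (T.b (T.b (T.b (T.n 1048592 1470) (T.n 131072 6125)) (T.b (T.p 65792 7350) (T.b (T.p 65537 1890) (T.n 8192 6125)))) (T.b (T.b (T.n 4112 13230) (T.p 512 11907)) (T.b (T.p 257 6930) (T.b (T.n 32 8085) (T.p 2 3003)))))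

def t7c7 : T :=
  T.b (T.b (T.b (T.b (T.n 536870912 3432) (T.n 269484032 11088)) (T.b (T.n 268439552 5040) (T.b (T.n 268435472 560) (T.p 33554432 12936)))) (T.b (T.b (T.p 16842752 35280) (T.p 16777472 11760)) (T.b (T.p 16777217 560) (T.b (T.n 2097152 31752) (T.n 1052672 58800))))) (T.b (T.b (T.b (T.n 1048592 11760) (T.p 131072 49000)) (T.b (T.p 65792 58800) (T.b (T.p 65537 5040) (T.n 8192 49000)))) (T.b (T.b (T.n 4112 35280) (T.p 512 31752)) (T.b (T.p 257 11088) (T.b (T.n 32 12936) (T.p 2 3432)))))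

def t7W0 : T :=
  T.b (T.b (T.b (T.b (T.p 285212672 14) (T.n 268500992 210)) (T.b (T.p 268435712 210) (T.n 268435457 14))) (T.b (T.b (T.p 17825792 294) (T.n 16781312 1470)) (T.b (T.p 16777232 490) (T.p 1114112 1470)))) (T.b (T.b (T.b (T.n 1048832 2646) (T.p 1048577 210)) (T.b (T.p 69632 2450) (T.n 65552 1470))) (T.b (T.b (T.p 4352 1470) (T.n 4097 210)) (T.b (T.p 272 294) (T.p 17 14))))

def t7W1 : T :=
  T.b (T.b (T.b (T.n 285212672 168) (T.b (T.p 268500992 1680) (T.n 268435712 840))) (T.b (T.n 17825792 2352) (T.b (T.p 16781312 5880) (T.n 1114112 5880)))) (T.b (T.b (T.p 1048577 840) (T.b (T.n 65552 5880) (T.p 4352 5880))) (T.b (T.n 4097 1680) (T.b (T.p 272 2352) (T.p 17 168))))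

def t7W2 : T :=
  T.b (T.b (T.b (T.b (T.p 285212672 924) (T.n 268500992 5460)) (T.b (T.p 268435712 420) (T.p 268435457 84))) (T.b (T.b (T.p 17825792 7644) (T.n 16781312 2940)) (T.b (T.n 16777232 2940) (T.p 1114112 2940)))) (T.b (T.b (T.b (T.p 1048832 15876) (T.p 1048577 420)) (T.b (T.n 69632 14700) (T.n 65552 2940))) (T.b (T.b (T.p 4352 2940) (T.n 4097 5460)) (T.b (T.p 272 7644) (T.p 17 924))))

def t7W3 : T :=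
  T.b (T.b (T.b (T.n 285212672 3080) (T.b (T.p 268500992 8400) (T.p 268435712 2520))) (T.b (T.n 17825792 11760) (T.b (T.n 16781312 17640) (T.p 1114112 17640)))) (T.b (T.b (T.n 1048577 2520) (T.b (T.p 65552 17640) (T.n 4352 17640))) (T.b (T.n 4097 8400) (T.b (T.p 272 11760) (T.p 17 3080))))

def t7W4 : T :=
  T.b (T.b (T.b (T.b (T.p 285212672 6930) (T.n 268500992 3150)) (T.b (T.n 268435712 3570) (T.n 268435457 210))) (T.b (T.b (T.p 17825792 4410) (T.p 16781312 24990)) (T.b (T.p 16777232 7350) (T.n 1114112 24990)))) (T.b (T.b (T.b (T.n 1048832 39690) (T.n 1048577 3570)) (T.b (T.p 69632 36750) (T.p 65552 24990))) (T.b (T.b (T.n 4352 24990) (T.n 4097 3150)) (T.b (T.p 272 4410) (T.p 17 6930))))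

def t7W5 : T :=
  T.b (T.b (T.b (T.n 285212672 11088) (T.b (T.n 268500992 10080) (T.n 268435712 1680))) (T.b (T.p 17825792 14112) (T.b (T.p 16781312 11760) (T.n 1114112 11760)))) (T.b (T.b (T.p 1048577 1680) (T.b (T.n 65552 11760) (T.p 4352 11760))) (T.b (T.p 4097 10080) (T.b (T.n 272 14112) (T.p 17 11088))))

def t7W6 : T :=
  T.b (T.b (T.b (T.b (T.p 285212672 12936) (T.p 268500992 17640)) (T.b (T.p 268435712 5880) (T.p 268435457 280))) (T.b (T.b (T.n 17825792 24696) (T.n 16781312 41160)) (T.b (T.n 16777232 9800) (T.p 1114112 41160)))) (T.b (T.b (T.b (T.p 1048832 52920) (T.p 1048577 5880)) (T.b (T.n 69632 49000) (T.n 65552 41160))) (T.b (T.b (T.p 4352 41160) (T.p 4097 17640)) (T.b (T.n 272 24696) (T.p 17 12936))))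

def t7N11 : T :=
  T.b (T.n 269484032 1) (T.p 33554432 1)

def t7N12 : T :=
  T.b (T.n 268500992 1) (T.p 17825792 1)

def t7N13 : T :=
  T.b (T.n 268439552 1) (T.p 16842752 1)

def t7N14 : T :=
  T.b (T.n 268435712 1) (T.p 16781312 1)

def t7N15 : T :=
  T.b (T.n 268435472 1) (T.p 16777472 1)

def t7N16 : T :=
  T.b (T.n 268435457 1) (T.p 16777232 1)

def t7N22 : T :=
  T.b (T.n 16842752 1) (T.p 2097152 1)

def t7N23 : T :=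
  T.b (T.n 16781312 1) (T.p 1114112 1)

def t7N24 : T :=
  T.b (T.n 16777472 1) (T.p 1052672 1)

def t7N25 : T :=
  T.b (T.n 16777232 1) (T.p 1048832 1)

def t7N26 : T :=
  T.b (T.n 16777217 1) (T.p 1048592 1)

def t7N33 : T :=
  T.b (T.n 1052672 1) (T.p 131072 1)

def t7N34 : T :=
  T.b (T.n 1048832 1) (T.p 69632 1)

def t7N35 : T :=
  T.b (T.n 1048592 1) (T.p 65792 1)

def t7N36 : T :=
  T.b (T.n 1048577 1) (T.p 65552 1)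

def t7N44 : T :=
  T.b (T.n 65792 1) (T.p 8192 1)

def t7N45 : T :=
  T.b (T.n 65552 1) (T.p 4352 1)

def t7N46 : T :=
  T.b (T.n 65537 1) (T.p 4112 1)

def t7N55 : T :=
  T.b (T.n 4112 1) (T.p 512 1)

def t7N56 : T :=
  T.b (T.n 4097 1) (T.p 272 1)

def t7N66 : T :=
  T.b (T.n 257 1) (T.p 32 1)

def L7 : List T := [t7c1, t7c2, t7c3, t7c4, t7c5, t7c6, t7c7, t7W0, t7W1]

def M7 : List T := [t7W2, t7W3, t7W4, t7W5, t7W6, t7N11, t7N12, t7N13, t7N14, t7N15, t7N16, t7N22, t7N23, t7N24, t7N25, t7N26, t7N33, t7N34, t7N35, t7N36, t7N44, t7N45, t7N46, t7N55, t7N56, t7N66]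

theorem t7c1_ev (p0 p1 p2 p3 p4 p5 p6 p7 : ℝ) :
    evT [p7, p6, p5, p4, p3, p2, p1, p0] t7c1 =
    -14 * p0 ^ 2 + 420 * p0 * p2 - 420 * p0 * p4 + 28 * p0 * p6 - 490 * p1 ^ 2 + 2940 * p1 * p3 - 588 * p1 * p5 - 28 * p1 * p7 - 2646 * p2 ^ 2 + 2940 * p2 * p4 + 588 * p2 * p6 - 2450 * p3 ^ 2 - 2940 * p3 * p5 + 420 * p3 * p7 + 2450 * p4 ^ 2 - 2940 * p4 * p6 + 2646 * p5 ^ 2 - 420 * p5 * p7 + 490 * p6 ^ 2 + 14 * p7 ^ 2 := by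
  simp only [t7c1, evT, evK, Nat.reduceMod, Nat.reduceDiv, pow_zero, pow_one, one_mul, mul_one,
    Nat.cast_ofNat, Nat.cast_one]
  ring

theorem t7c2_ev (p0 p1 p2 p3 p4 p5 p6 p7 : ℝ) :
    evT [p7, p6, p5, p4, p3, p2, p1, p0] t7c2 =
    91 * p0 ^ 2 - 1806 * p0 * p2 + 770 * p0 * p4 + 70 * p0 * p6 + 2107 * p1 ^ 2 - 5390 * p1 * p3 - 1470 * p1 * p5 + 70 * p1 * p7 + 4851 * p2 ^ 2 + 7350 * p2 * p4 - 1470 * p2 * p6 - 6125 * p3 ^ 2 + 7350 * p3 * p5 + 770 * p3 * p7 - 6125 * p4 ^ 2 - 5390 * p4 * p6 + 4851 * p5 ^ 2 - 1806 * p5 * p7 + 2107 * p6 ^ 2 + 91 * p7 ^ 2 := by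
  simp only [t7c2, evT, evK, Nat.reduceMod, Nat.reduceDiv, pow_zero, pow_one, one_mul, mul_one,
    Nat.cast_ofNat, Nat.cast_one]
  ring

theorem t7c3_ev (p0 p1 p2 p3 p4 p5 p6 p7 : ℝ) :
    evT [p7, p6, p5, p4, p3, p2, p1, p0] t7c3 =
    -364 * p0 ^ 2 + 4200 * p0 * p2 + 280 * p0 * p4 - 168 * p0 * p6 - 4900 * p1 ^ 2 - 1960 * p1 * p3 + 3528 * p1 * p5 + 168 * p1 * p7 + 1764 * p2 ^ 2 - 17640 * p2 * p4 - 3528 * p2 * p6 + 14700 * p3 ^ 2 + 17640 * p3 * p5 - 280 * p3 * p7 - 14700 * p4 ^ 2 + 1960 * p4 * p6 - 1764 * p5 ^ 2 - 4200 * p5 * p7 + 4900 * p6 ^ 2 + 364 * p7 ^ 2 := by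
  simp only [t7c3, evT, evK, Nat.reduceMod, Nat.reduceDiv, pow_zero, pow_one, one_mul, mul_one,
    Nat.cast_ofNat, Nat.cast_one]
  ring

theorem t7c4_ev (p0 p1 p2 p3 p4 p5 p6 p7 : ℝ) :
    evT [p7, p6, p5, p4, p3, p2, p1, p0] t7c4 =
    1001 * p0 ^ 2 - 5082 * p0 * p2 - 2730 * p0 * p4 - 126 * p0 * p6 + 5929 * p1 ^ 2 + 19110 * p1 * p3 + 2646 * p1 * p5 - 126 * p1 * p7 - 17199 * p2 ^ 2 - 13230 * p2 * p4 + 2646 * p2 * p6 + 11025 * p3 ^ 2 - 13230 * p3 * p5 - 2730 * p3 * p7 + 11025 * p4 ^ 2 + 19110 * p4 * p6 - 17199 * p5 ^ 2 - 5082 * p5 * p7 + 5929 * p6 ^ 2 + 1001 * p7 ^ 2 := by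
  simp only [t7c4, evT, evK, Nat.reduceMod, Nat.reduceDiv, pow_zero, pow_one, one_mul, mul_one,
    Nat.cast_ofNat, Nat.cast_one]
  ring

theorem t7c5_ev (p0 p1 p2 p3 p4 p5 p6 p7 : ℝ) :
    evT [p7, p6, p5, p4, p3, p2, p1, p0] t7c5 =
    -2002 * p0 ^ 2 + 924 * p0 * p2 + 2660 * p0 * p4 + 420 * p0 * p6 - 1078 * p1 ^ 2 - 18620 * p1 * p3 - 8820 * p1 * p5 - 420 * p1 * p7 + 16758 * p2 ^ 2 + 44100 * p2 * p4 + 8820 * p2 * p6 - 36750 * p3 ^ 2 - 44100 * p3 * p5 - 2660 * p3 * p7 + 36750 * p4 ^ 2 + 18620 * p4 * p6 - 16758 * p5 ^ 2 - 924 * p5 * p7 + 1078 * p6 ^ 2 + 2002 * p7 ^ 2 := by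
  simp only [t7c5, evT, evK, Nat.reduceMod, Nat.reduceDiv, pow_zero, pow_one, one_mul, mul_one,
    Nat.cast_ofNat, Nat.cast_one]
  ring

theorem t7c6_ev (p0 p1 p2 p3 p4 p5 p6 p7 : ℝ) :
    evT [p7, p6, p5, p4, p3, p2, p1, p0] t7c6 =
    3003 * p0 ^ 2 + 6930 * p0 * p2 + 1890 * p0 * p4 + 70 * p0 * p6 - 8085 * p1 ^ 2 - 13230 * p1 * p3 - 1470 * p1 * p5 + 70 * p1 * p7 + 11907 * p2 ^ 2 + 7350 * p2 * p4 - 1470 * p2 * p6 - 6125 * p3 ^ 2 + 7350 * p3 * p5 + 1890 * p3 * p7 - 6125 * p4 ^ 2 - 13230 * p4 * p6 + 11907 * p5 ^ 2 + 6930 * p5 * p7 - 8085 * p6 ^ 2 + 3003 * p7 ^ 2 := by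
  simp only [t7c6, evT, evK, Nat.reduceMod, Nat.reduceDiv, pow_zero, pow_one, one_mul, mul_one,
    Nat.cast_ofNat, Nat.cast_one]
  ring

theorem t7c7_ev (p0 p1 p2 p3 p4 p5 p6 p7 : ℝ) :
    evT [p7, p6, p5, p4, p3, p2, p1, p0] t7c7 =
    -3432 * p0 ^ 2 - 11088 * p0 * p2 - 5040 * p0 * p4 - 560 * p0 * p6 + 12936 * p1 ^ 2 + 35280 * p1 * p3 + 11760 * p1 * p5 + 560 * p1 * p7 - 31752 * p2 ^ 2 - 58800 * p2 * p4 - 11760 * p2 * p6 + 49000 * p3 ^ 2 + 58800 * p3 * p5 + 5040 * p3 * p7 - 49000 * p4 ^ 2 - 35280 * p4 * p6 + 31752 * p5 ^ 2 + 11088 * p5 * p7 - 12936 * p6 ^ 2 + 3432 * p7 ^ 2 := by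
  simp only [t7c7, evT, evK, Nat.reduceMod, Nat.reduceDiv, pow_zero, pow_one, one_mul, mul_one,
    Nat.cast_ofNat, Nat.cast_one]
  ring

theorem t7W0_ev (p0 p1 p2 p3 p4 p5 p6 p7 : ℝ) :
    evT [p7, p6, p5, p4, p3, p2, p1, p0] t7W0 =
    14 * p0 * p1 - 210 * p0 * p3 + 210 * p0 * p5 - 14 * p0 * p7 + 294 * p1 * p2 - 1470 * p1 * p4 + 490 * p1 * p6 + 1470 * p2 * p3 - 2646 * p2 * p5 + 210 * p2 * p7 + 2450 * p3 * p4 - 1470 * p3 * p6 + 1470 * p4 * p5 - 210 * p4 * p7 + 294 * p5 * p6 + 14 * p6 * p7 := by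
  simp only [t7W0, evT, evK, Nat.reduceMod, Nat.reduceDiv, pow_zero, pow_one, one_mul, mul_one,
    Nat.cast_ofNat, Nat.cast_one]
  ring

theorem t7W1_ev (p0 p1 p2 p3 p4 p5 p6 p7 : ℝ) :
    evT [p7, p6, p5, p4, p3, p2, p1, p0] t7W1 =
    -168 * p0 * p1 + 1680 * p0 * p3 - 840 * p0 * p5 - 2352 * p1 * p2 + 5880 * p1 * p4 - 5880 * p2 * p3 + 840 * p2 * p7 - 5880 * p3 * p6 + 5880 * p4 * p5 - 1680 * p4 * p7 + 2352 * p5 * p6 + 168 * p6 * p7 := by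
  simp only [t7W1, evT, evK, Nat.reduceMod, Nat.reduceDiv, pow_zero, pow_one, one_mul, mul_one,
    Nat.cast_ofNat, Nat.cast_one]
  ring

theorem t7W2_ev (p0 p1 p2 p3 p4 p5 p6 p7 : ℝ) :
    evT [p7, p6, p5, p4, p3, p2, p1, p0] t7W2 =
    924 * p0 * p1 - 5460 * p0 * p3 + 420 * p0 * p5 + 84 * p0 * p7 + 7644 * p1 * p2 - 2940 * p1 * p4 - 2940 * p1 * p6 + 2940 * p2 * p3 + 15876 * p2 * p5 + 420 * p2 * p7 - 14700 * p3 * p4 - 2940 * p3 * p6 + 2940 * p4 * p5 - 5460 * p4 * p7 + 7644 * p5 * p6 + 924 * p6 * p7 := by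
  simp only [t7W2, evT, evK, Nat.reduceMod, Nat.reduceDiv, pow_zero, pow_one, one_mul, mul_one,
    Nat.cast_ofNat, Nat.cast_one]
  ring

theorem t7W3_ev (p0 p1 p2 p3 p4 p5 p6 p7 : ℝ) :
    evT [p7, p6, p5, p4, p3, p2, p1, p0] t7W3 =
    -3080 * p0 * p1 + 8400 * p0 * p3 + 2520 * p0 * p5 - 11760 * p1 * p2 - 17640 * p1 * p4 + 17640 * p2 * p3 - 2520 * p2 * p7 + 17640 * p3 * p6 - 17640 * p4 * p5 - 8400 * p4 * p7 + 11760 * p5 * p6 + 3080 * p6 * p7 := by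
  simp only [t7W3, evT, evK, Nat.reduceMod, Nat.reduceDiv, pow_zero, pow_one, one_mul, mul_one,
    Nat.cast_ofNat, Nat.cast_one]
  ring

theorem t7W4_ev (p0 p1 p2 p3 p4 p5 p6 p7 : ℝ) :
    evT [p7, p6, p5, p4, p3, p2, p1, p0] t7W4 =
    6930 * p0 * p1 - 3150 * p0 * p3 - 3570 * p0 * p5 - 210 * p0 * p7 + 4410 * p1 * p2 + 24990 * p1 * p4 + 7350 * p1 * p6 - 24990 * p2 * p3 - 39690 * p2 * p5 - 3570 * p2 * p7 + 36750 * p3 * p4 + 24990 * p3 * p6 - 24990 * p4 * p5 - 3150 * p4 * p7 + 4410 * p5 * p6 + 6930 * p6 * p7 := by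
  simp only [t7W4, evT, evK, Nat.reduceMod, Nat.reduceDiv, pow_zero, pow_one, one_mul, mul_one,
    Nat.cast_ofNat, Nat.cast_one]
  ring

theorem t7W5_ev (p0 p1 p2 p3 p4 p5 p6 p7 : ℝ) :
    evT [p7, p6, p5, p4, p3, p2, p1, p0] t7W5 =
    -11088 * p0 * p1 - 10080 * p0 * p3 - 1680 * p0 * p5 + 14112 * p1 * p2 + 11760 * p1 * p4 - 11760 * p2 * p3 + 1680 * p2 * p7 - 11760 * p3 * p6 + 11760 * p4 * p5 + 10080 * p4 * p7 - 14112 * p5 * p6 + 11088 * p6 * p7 := by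
  simp only [t7W5, evT, evK, Nat.reduceMod, Nat.reduceDiv, pow_zero, pow_one, one_mul, mul_one,
    Nat.cast_ofNat, Nat.cast_one]
  ring

theorem t7W6_ev (p0 p1 p2 p3 p4 p5 p6 p7 : ℝ) :
    evT [p7, p6, p5, p4, p3, p2, p1, p0] t7W6 =
    12936 * p0 * p1 + 17640 * p0 * p3 + 5880 * p0 * p5 + 280 * p0 * p7 - 24696 * p1 * p2 - 41160 * p1 * p4 - 9800 * p1 * p6 + 41160 * p2 * p3 + 52920 * p2 * p5 + 5880 * p2 * p7 - 49000 * p3 * p4 - 41160 * p3 * p6 + 41160 * p4 * p5 + 17640 * p4 * p7 - 24696 * p5 * p6 + 12936 * p6 * p7 := by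
  simp only [t7W6, evT, evK, Nat.reduceMod, Nat.reduceDiv, pow_zero, pow_one, one_mul, mul_one,
    Nat.cast_ofNat, Nat.cast_one]
  ring

theorem t7N11_ev (p0 p1 p2 p3 p4 p5 p6 p7 : ℝ) :
    evT [p7, p6, p5, p4, p3, p2, p1, p0] t7N11 =
    -1 * p0 * p2 + p1 ^ 2 := by
  simp only [t7N11, evT, evK, Nat.reduceMod, Nat.reduceDiv, pow_zero, pow_one, one_mul, mul_one,
    Nat.cast_ofNat, Nat.cast_one]
  ring

theorem t7N12_ev (p0 p1 p2 p3 p4 p5 p6 p7 : ℝ) :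
    evT [p7, p6, p5, p4, p3, p2, p1, p0] t7N12 =
    -1 * p0 * p3 + p1 * p2 := by
  simp only [t7N12, evT, evK, Nat.reduceMod, Nat.reduceDiv, pow_zero, pow_one, one_mul, mul_one,
    Nat.cast_ofNat, Nat.cast_one]
  ring

theorem t7N13_ev (p0 p1 p2 p3 p4 p5 p6 p7 : ℝ) :
    evT [p7, p6, p5, p4, p3, p2, p1, p0] t7N13 =
    -1 * p0 * p4 + p1 * p3 := by
  simp only [t7N13, evT, evK, Nat.reduceMod, Nat.reduceDiv, pow_zero, pow_one, one_mul, mul_one,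
    Nat.cast_ofNat, Nat.cast_one]
  ring

theorem t7N14_ev (p0 p1 p2 p3 p4 p5 p6 p7 : ℝ) :
    evT [p7, p6, p5, p4, p3, p2, p1, p0] t7N14 =
    -1 * p0 * p5 + p1 * p4 := by
  simp only [t7N14, evT, evK, Nat.reduceMod, Nat.reduceDiv, pow_zero, pow_one, one_mul, mul_one,
    Nat.cast_ofNat, Nat.cast_one]
  ring

theorem t7N15_ev (p0 p1 p2 p3 p4 p5 p6 p7 : ℝ) :
    evT [p7, p6, p5, p4, p3, p2, p1, p0] t7N15 =
    -1 * p0 * p6 + p1 * p5 := by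
  simp only [t7N15, evT, evK, Nat.reduceMod, Nat.reduceDiv, pow_zero, pow_one, one_mul, mul_one,
    Nat.cast_ofNat, Nat.cast_one]
  ring

theorem t7N16_ev (p0 p1 p2 p3 p4 p5 p6 p7 : ℝ) :
    evT [p7, p6, p5, p4, p3, p2, p1, p0] t7N16 =
    -1 * p0 * p7 + p1 * p6 := by
  simp only [t7N16, evT, evK, Nat.reduceMod, Nat.reduceDiv, pow_zero, pow_one, one_mul, mul_one,
    Nat.cast_ofNat, Nat.cast_one]
  ring

theorem t7N22_ev (p0 p1 p2 p3 p4 p5 p6 p7 : ℝ) :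
    evT [p7, p6, p5, p4, p3, p2, p1, p0] t7N22 =
    -1 * p1 * p3 + p2 ^ 2 := by
  simp only [t7N22, evT, evK, Nat.reduceMod, Nat.reduceDiv, pow_zero, pow_one, one_mul, mul_one,
    Nat.cast_ofNat, Nat.cast_one]
  ring

theorem t7N23_ev (p0 p1 p2 p3 p4 p5 p6 p7 : ℝ) :
    evT [p7, p6, p5, p4, p3, p2, p1, p0] t7N23 =
    -1 * p1 * p4 + p2 * p3 := by
  simp only [t7N23, evT, evK, Nat.reduceMod, Nat.reduceDiv, pow_zero, pow_one, one_mul, mul_one,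
    Nat.cast_ofNat, Nat.cast_one]
  ring

theorem t7N24_ev (p0 p1 p2 p3 p4 p5 p6 p7 : ℝ) :
    evT [p7, p6, p5, p4, p3, p2, p1, p0] t7N24 =
    -1 * p1 * p5 + p2 * p4 := by
  simp only [t7N24, evT, evK, Nat.reduceMod, Nat.reduceDiv, pow_zero, pow_one, one_mul, mul_one,
    Nat.cast_ofNat, Nat.cast_one]
  ring

theorem t7N25_ev (p0 p1 p2 p3 p4 p5 p6 p7 : ℝ) :
    evT [p7, p6, p5, p4, p3, p2, p1, p0] t7N25 =
    -1 * p1 * p6 + p2 * p5 := by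
  simp only [t7N25, evT, evK, Nat.reduceMod, Nat.reduceDiv, pow_zero, pow_one, one_mul, mul_one,
    Nat.cast_ofNat, Nat.cast_one]
  ring

theorem t7N26_ev (p0 p1 p2 p3 p4 p5 p6 p7 : ℝ) :
    evT [p7, p6, p5, p4, p3, p2, p1, p0] t7N26 =
    -1 * p1 * p7 + p2 * p6 := by
  simp only [t7N26, evT, evK, Nat.reduceMod, Nat.reduceDiv, pow_zero, pow_one, one_mul, mul_one,
    Nat.cast_ofNat, Nat.cast_one]
  ring

theorem t7N33_ev (p0 p1 p2 p3 p4 p5 p6 p7 : ℝ) :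
    evT [p7, p6, p5, p4, p3, p2, p1, p0] t7N33 =
    -1 * p2 * p4 + p3 ^ 2 := by
  simp only [t7N33, evT, evK, Nat.reduceMod, Nat.reduceDiv, pow_zero, pow_one, one_mul, mul_one,
    Nat.cast_ofNat, Nat.cast_one]
  ring

theorem t7N34_ev (p0 p1 p2 p3 p4 p5 p6 p7 : ℝ) :
    evT [p7, p6, p5, p4, p3, p2, p1, p0] t7N34 =
    -1 * p2 * p5 + p3 * p4 := by
  simp only [t7N34, evT, evK, Nat.reduceMod, Nat.reduceDiv, pow_zero, pow_one, one_mul, mul_one,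
    Nat.cast_ofNat, Nat.cast_one]
  ring

theorem t7N35_ev (p0 p1 p2 p3 p4 p5 p6 p7 : ℝ) :
    evT [p7, p6, p5, p4, p3, p2, p1, p0] t7N35 =
    -1 * p2 * p6 + p3 * p5 := by
  simp only [t7N35, evT, evK, Nat.reduceMod, Nat.reduceDiv, pow_zero, pow_one, one_mul, mul_one,
    Nat.cast_ofNat, Nat.cast_one]
  ring

theorem t7N36_ev (p0 p1 p2 p3 p4 p5 p6 p7 : ℝ) :
    evT [p7, p6, p5, p4, p3, p2, p1, p0] t7N36 =
    -1 * p2 * p7 + p3 * p6 := by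
  simp only [t7N36, evT, evK, Nat.reduceMod, Nat.reduceDiv, pow_zero, pow_one, one_mul, mul_one,
    Nat.cast_ofNat, Nat.cast_one]
  ring

theorem t7N44_ev (p0 p1 p2 p3 p4 p5 p6 p7 : ℝ) :
    evT [p7, p6, p5, p4, p3, p2, p1, p0] t7N44 =
    -1 * p3 * p5 + p4 ^ 2 := by
  simp only [t7N44, evT, evK, Nat.reduceMod, Nat.reduceDiv, pow_zero, pow_one, one_mul, mul_one,
    Nat.cast_ofNat, Nat.cast_one]
  ring

theorem t7N45_ev (p0 p1 p2 p3 p4 p5 p6 p7 : ℝ) :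
    evT [p7, p6, p5, p4, p3, p2, p1, p0] t7N45 =
    -1 * p3 * p6 + p4 * p5 := by
  simp only [t7N45, evT, evK, Nat.reduceMod, Nat.reduceDiv, pow_zero, pow_one, one_mul, mul_one,
    Nat.cast_ofNat, Nat.cast_one]
  ring

theorem t7N46_ev (p0 p1 p2 p3 p4 p5 p6 p7 : ℝ) :
    evT [p7, p6, p5, p4, p3, p2, p1, p0] t7N46 =
    -1 * p3 * p7 + p4 * p6 := by
  simp only [t7N46, evT, evK, Nat.reduceMod, Nat.reduceDiv, pow_zero, pow_one, one_mul, mul_one,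
    Nat.cast_ofNat, Nat.cast_one]
  ring

theorem t7N55_ev (p0 p1 p2 p3 p4 p5 p6 p7 : ℝ) :
    evT [p7, p6, p5, p4, p3, p2, p1, p0] t7N55 =
    -1 * p4 * p6 + p5 ^ 2 := by
  simp only [t7N55, evT, evK, Nat.reduceMod, Nat.reduceDiv, pow_zero, pow_one, one_mul, mul_one,
    Nat.cast_ofNat, Nat.cast_one]
  ring

theorem t7N56_ev (p0 p1 p2 p3 p4 p5 p6 p7 : ℝ) :
    evT [p7, p6, p5, p4, p3, p2, p1, p0] t7N56 =
    -1 * p4 * p7 + p5 * p6 := by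
  simp only [t7N56, evT, evK, Nat.reduceMod, Nat.reduceDiv, pow_zero, pow_one, one_mul, mul_one,
    Nat.cast_ofNat, Nat.cast_one]
  ring

theorem t7N66_ev (p0 p1 p2 p3 p4 p5 p6 p7 : ℝ) :
    evT [p7, p6, p5, p4, p3, p2, p1, p0] t7N66 =
    -1 * p5 * p7 + p6 ^ 2 := by
  simp only [t7N66, evT, evK, Nat.reduceMod, Nat.reduceDiv, pow_zero, pow_one, one_mul, mul_one,
    Nat.cast_ofNat, Nat.cast_one]
  ring

/-- Ratios. -/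
theorem tr7 {x y z w v : ℝ} (hw : 0 < w) (h1 : 0 ≤ y * z - x * w) (h2 : 0 ≤ w * w - z * v)
    (hy : 0 ≤ y) (hv : 0 ≤ v) : 0 ≤ y * w - x * v := by
  have h3 := mul_nonneg h1 hv
  have h4 := mul_nonneg h2 hy
  have h5 : 0 ≤ w * (y * w - x * v) := by linarith
  exact nonneg_of_mul_nonneg_right h5 hw

theorem facts7 (p0 p1 p2 p3 p4 p5 p6 p7 : ℝ) (hp0 : 0 < p0) (hp1 : 0 < p1) (hp2 : 0 < p2) (hp3 : 0 < p3) (hp4 : 0 < p4) (hp5 : 0 < p5) (hp6 : 0 < p6) (hp7 : 0 < p7)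
    (hn1 : p0 * p2 ≤ p1 ^ 2)
    (hn2 : p1 * p3 ≤ p2 ^ 2)
    (hn3 : p2 * p4 ≤ p3 ^ 2)
    (hn4 : p3 * p5 ≤ p4 ^ 2)
    (hn5 : p4 * p6 ≤ p5 ^ 2)
    (hn6 : p5 * p7 ≤ p6 ^ 2)
    (hc1 : 0 < -14 * p0 ^ 2 + 420 * p0 * p2 - 420 * p0 * p4 + 28 * p0 * p6 - 490 * p1 ^ 2 + 2940 * p1 * p3 - 588 * p1 * p5 - 28 * p1 * p7 - 2646 * p2 ^ 2 + 2940 * p2 * p4 + 588 * p2 * p6 - 2450 * p3 ^ 2 - 2940 * p3 * p5 + 420 * p3 * p7 + 2450 * p4 ^ 2 - 2940 * p4 * p6 + 2646 * p5 ^ 2 - 420 * p5 * p7 + 490 * p6 ^ 2 + 14 * p7 ^ 2)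
    (hc2 : 0 < 91 * p0 ^ 2 - 1806 * p0 * p2 + 770 * p0 * p4 + 70 * p0 * p6 + 2107 * p1 ^ 2 - 5390 * p1 * p3 - 1470 * p1 * p5 + 70 * p1 * p7 + 4851 * p2 ^ 2 + 7350 * p2 * p4 - 1470 * p2 * p6 - 6125 * p3 ^ 2 + 7350 * p3 * p5 + 770 * p3 * p7 - 6125 * p4 ^ 2 - 5390 * p4 * p6 + 4851 * p5 ^ 2 - 1806 * p5 * p7 + 2107 * p6 ^ 2 + 91 * p7 ^ 2)
    (hc3 : 0 < -364 * p0 ^ 2 + 4200 * p0 * p2 + 280 * p0 * p4 - 168 * p0 * p6 - 4900 * p1 ^ 2 - 1960 * p1 * p3 + 3528 * p1 * p5 + 168 * p1 * p7 + 1764 * p2 ^ 2 - 17640 * p2 * p4 - 3528 * p2 * p6 + 14700 * p3 ^ 2 + 17640 * p3 * p5 - 280 * p3 * p7 - 14700 * p4 ^ 2 + 1960 * p4 * p6 - 1764 * p5 ^ 2 - 4200 * p5 * p7 + 4900 * p6 ^ 2 + 364 * p7 ^ 2)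
    (hc4 : 0 < 1001 * p0 ^ 2 - 5082 * p0 * p2 - 2730 * p0 * p4 - 126 * p0 * p6 + 5929 * p1 ^ 2 + 19110 * p1 * p3 + 2646 * p1 * p5 - 126 * p1 * p7 - 17199 * p2 ^ 2 - 13230 * p2 * p4 + 2646 * p2 * p6 + 11025 * p3 ^ 2 - 13230 * p3 * p5 - 2730 * p3 * p7 + 11025 * p4 ^ 2 + 19110 * p4 * p6 - 17199 * p5 ^ 2 - 5082 * p5 * p7 + 5929 * p6 ^ 2 + 1001 * p7 ^ 2)
    (hc5 : 0 < -2002 * p0 ^ 2 + 924 * p0 * p2 + 2660 * p0 * p4 + 420 * p0 * p6 - 1078 * p1 ^ 2 - 18620 * p1 * p3 - 8820 * p1 * p5 - 420 * p1 * p7 + 16758 * p2 ^ 2 + 44100 * p2 * p4 + 8820 * p2 * p6 - 36750 * p3 ^ 2 - 44100 * p3 * p5 - 2660 * p3 * p7 + 36750 * p4 ^ 2 + 18620 * p4 * p6 - 16758 * p5 ^ 2 - 924 * p5 * p7 + 1078 * p6 ^ 2 + 2002 * p7 ^ 2)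
    (hc6 : 0 < 3003 * p0 ^ 2 + 6930 * p0 * p2 + 1890 * p0 * p4 + 70 * p0 * p6 - 8085 * p1 ^ 2 - 13230 * p1 * p3 - 1470 * p1 * p5 + 70 * p1 * p7 + 11907 * p2 ^ 2 + 7350 * p2 * p4 - 1470 * p2 * p6 - 6125 * p3 ^ 2 + 7350 * p3 * p5 + 1890 * p3 * p7 - 6125 * p4 ^ 2 - 13230 * p4 * p6 + 11907 * p5 ^ 2 + 6930 * p5 * p7 - 8085 * p6 ^ 2 + 3003 * p7 ^ 2)
    (hc7 : 0 < -3432 * p0 ^ 2 - 11088 * p0 * p2 - 5040 * p0 * p4 - 560 * p0 * p6 + 12936 * p1 ^ 2 + 35280 * p1 * p3 + 11760 * p1 * p5 + 560 * p1 * p7 - 31752 * p2 ^ 2 - 58800 * p2 * p4 - 11760 * p2 * p6 + 49000 * p3 ^ 2 + 58800 * p3 * p5 + 5040 * p3 * p7 - 49000 * p4 ^ 2 - 35280 * p4 * p6 + 31752 * p5 ^ 2 + 11088 * p5 * p7 - 12936 * p6 ^ 2 + 3432 * p7 ^ 2)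
    (hW0 : 0 < 14 * p0 * p1 - 210 * p0 * p3 + 210 * p0 * p5 - 14 * p0 * p7 + 294 * p1 * p2 - 1470 * p1 * p4 + 490 * p1 * p6 + 1470 * p2 * p3 - 2646 * p2 * p5 + 210 * p2 * p7 + 2450 * p3 * p4 - 1470 * p3 * p6 + 1470 * p4 * p5 - 210 * p4 * p7 + 294 * p5 * p6 + 14 * p6 * p7)
    (hW1 : 0 < -168 * p0 * p1 + 1680 * p0 * p3 - 840 * p0 * p5 - 2352 * p1 * p2 + 5880 * p1 * p4 - 5880 * p2 * p3 + 840 * p2 * p7 - 5880 * p3 * p6 + 5880 * p4 * p5 - 1680 * p4 * p7 + 2352 * p5 * p6 + 168 * p6 * p7)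
    (hW2 : 0 ≤ 924 * p0 * p1 - 5460 * p0 * p3 + 420 * p0 * p5 + 84 * p0 * p7 + 7644 * p1 * p2 - 2940 * p1 * p4 - 2940 * p1 * p6 + 2940 * p2 * p3 + 15876 * p2 * p5 + 420 * p2 * p7 - 14700 * p3 * p4 - 2940 * p3 * p6 + 2940 * p4 * p5 - 5460 * p4 * p7 + 7644 * p5 * p6 + 924 * p6 * p7)
    (hW3 : 0 ≤ -3080 * p0 * p1 + 8400 * p0 * p3 + 2520 * p0 * p5 - 11760 * p1 * p2 - 17640 * p1 * p4 + 17640 * p2 * p3 - 2520 * p2 * p7 + 17640 * p3 * p6 - 17640 * p4 * p5 - 8400 * p4 * p7 + 11760 * p5 * p6 + 3080 * p6 * p7)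
    (hW4 : 0 ≤ 6930 * p0 * p1 - 3150 * p0 * p3 - 3570 * p0 * p5 - 210 * p0 * p7 + 4410 * p1 * p2 + 24990 * p1 * p4 + 7350 * p1 * p6 - 24990 * p2 * p3 - 39690 * p2 * p5 - 3570 * p2 * p7 + 36750 * p3 * p4 + 24990 * p3 * p6 - 24990 * p4 * p5 - 3150 * p4 * p7 + 4410 * p5 * p6 + 6930 * p6 * p7)
    (hW5 : 0 ≤ -11088 * p0 * p1 - 10080 * p0 * p3 - 1680 * p0 * p5 + 14112 * p1 * p2 + 11760 * p1 * p4 - 11760 * p2 * p3 + 1680 * p2 * p7 - 11760 * p3 * p6 + 11760 * p4 * p5 + 10080 * p4 * p7 - 14112 * p5 * p6 + 11088 * p6 * p7)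
    (hW6 : 0 ≤ 12936 * p0 * p1 + 17640 * p0 * p3 + 5880 * p0 * p5 + 280 * p0 * p7 - 24696 * p1 * p2 - 41160 * p1 * p4 - 9800 * p1 * p6 + 41160 * p2 * p3 + 52920 * p2 * p5 + 5880 * p2 * p7 - 49000 * p3 * p4 - 41160 * p3 * p6 + 41160 * p4 * p5 + 17640 * p4 * p7 - 24696 * p5 * p6 + 12936 * p6 * p7) :
    (∀ v ∈ ([p7, p6, p5, p4, p3, p2, p1, p0] : List ℝ), 0 < v) ∧ (∀ t ∈ L7, 0 < evT [p7, p6, p5, p4, p3, p2, p1, p0] t) ∧ (∀ t ∈ M7, 0 ≤ evT [p7, p6, p5, p4, p3, p2, p1, p0] t) := by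
  have hN11 : 0 ≤ p1 * p1 - p0 * p2 := by linarith
  have hN22 : 0 ≤ p2 * p2 - p1 * p3 := by linarith
  have hN33 : 0 ≤ p3 * p3 - p2 * p4 := by linarith
  have hN44 : 0 ≤ p4 * p4 - p3 * p5 := by linarith
  have hN55 : 0 ≤ p5 * p5 - p4 * p6 := by linarith
  have hN66 : 0 ≤ p6 * p6 - p5 * p7 := by linarith
  have hN12 : 0 ≤ p1 * p2 - p0 * p3 := tr7 (x := p0) (y := p1) (z := p1) (w := p2) (v := p3) hp2 hN11 hN22 hp1.le hp3.le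
  have hN23 : 0 ≤ p2 * p3 - p1 * p4 := tr7 (x := p1) (y := p2) (z := p2) (w := p3) (v := p4) hp3 hN22 hN33 hp2.le hp4.le
  have hN34 : 0 ≤ p3 * p4 - p2 * p5 := tr7 (x := p2) (y := p3) (z := p3) (w := p4) (v := p5) hp4 hN33 hN44 hp3.le hp5.le
  have hN45 : 0 ≤ p4 * p5 - p3 * p6 := tr7 (x := p3) (y := p4) (z := p4) (w := p5) (v := p6) hp5 hN44 hN55 hp4.le hp6.le
  have hN56 : 0 ≤ p5 * p6 - p4 * p7 := tr7 (x := p4) (y := p5) (z := p5) (w := p6) (v := p7) hp6 hN55 hN66 hp5.le hp7.le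
  have hN13 : 0 ≤ p1 * p3 - p0 * p4 := tr7 (x := p0) (y := p1) (z := p2) (w := p3) (v := p4) hp3 hN12 hN33 hp1.le hp4.le
  have hN24 : 0 ≤ p2 * p4 - p1 * p5 := tr7 (x := p1) (y := p2) (z := p3) (w := p4) (v := p5) hp4 hN23 hN44 hp2.le hp5.le
  have hN35 : 0 ≤ p3 * p5 - p2 * p6 := tr7 (x := p2) (y := p3) (z := p4) (w := p5) (v := p6) hp5 hN34 hN55 hp3.le hp6.le
  have hN46 : 0 ≤ p4 * p6 - p3 * p7 := tr7 (x := p3) (y := p4) (z := p5) (w := p6) (v := p7) hp6 hN45 hN66 hp4.le hp7.le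
  have hN14 : 0 ≤ p1 * p4 - p0 * p5 := tr7 (x := p0) (y := p1) (z := p3) (w := p4) (v := p5) hp4 hN13 hN44 hp1.le hp5.le
  have hN25 : 0 ≤ p2 * p5 - p1 * p6 := tr7 (x := p1) (y := p2) (z := p4) (w := p5) (v := p6) hp5 hN24 hN55 hp2.le hp6.le
  have hN36 : 0 ≤ p3 * p6 - p2 * p7 := tr7 (x := p2) (y := p3) (z := p5) (w := p6) (v := p7) hp6 hN35 hN66 hp3.le hp7.le
  have hN15 : 0 ≤ p1 * p5 - p0 * p6 := tr7 (x := p0) (y := p1) (z := p4) (w := p5) (v := p6) hp5 hN14 hN55 hp1.le hp6.le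
  have hN26 : 0 ≤ p2 * p6 - p1 * p7 := tr7 (x := p1) (y := p2) (z := p5) (w := p6) (v := p7) hp6 hN25 hN66 hp2.le hp7.le
  have hN16 : 0 ≤ p1 * p6 - p0 * p7 := tr7 (x := p0) (y := p1) (z := p5) (w := p6) (v := p7) hp6 hN15 hN66 hp1.le hp7.le
  refine ⟨?_, ?_, ?_⟩
  · exact List.forall_mem_cons.2 ⟨hp7, List.forall_mem_cons.2 ⟨hp6, List.forall_mem_cons.2 ⟨hp5, List.forall_mem_cons.2 ⟨hp4, List.forall_mem_cons.2 ⟨hp3, List.forall_mem_cons.2 ⟨hp2, List.forall_mem_cons.2 ⟨hp1, List.forall_mem_cons.2 ⟨hp0, List.forall_mem_nil _⟩⟩⟩⟩⟩⟩⟩⟩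
  · exact List.forall_mem_cons.2 ⟨(t7c1_ev p0 p1 p2 p3 p4 p5 p6 p7).symm ▸ hc1, List.forall_mem_cons.2 ⟨(t7c2_ev p0 p1 p2 p3 p4 p5 p6 p7).symm ▸ hc2, List.forall_mem_cons.2 ⟨(t7c3_ev p0 p1 p2 p3 p4 p5 p6 p7).symm ▸ hc3, List.forall_mem_cons.2 ⟨(t7c4_ev p0 p1 p2 p3 p4 p5 p6 p7).symm ▸ hc4, List.forall_mem_cons.2 ⟨(t7c5_ev p0 p1 p2 p3 p4 p5 p6 p7).symm ▸ hc5, List.forall_mem_cons.2 ⟨(t7c6_ev p0 p1 p2 p3 p4 p5 p6 p7).symm ▸ hc6, List.forall_mem_cons.2 ⟨(t7c7_ev p0 p1 p2 p3 p4 p5 p6 p7).symm ▸ hc7, List.forall_mem_cons.2 ⟨(t7W0_ev p0 p1 p2 p3 p4 p5 p6 p7).symm ▸ hW0, List.forall_mem_cons.2 ⟨(t7W1_ev p0 p1 p2 p3 p4 p5 p6 p7).symm ▸ hW1, List.forall_mem_nil _⟩⟩⟩⟩⟩⟩⟩⟩⟩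
  · exact List.forall_mem_cons.2 ⟨(t7W2_ev p0 p1 p2 p3 p4 p5 p6 p7).symm ▸ (by linarith), List.forall_mem_cons.2 ⟨(t7W3_ev p0 p1 p2 p3 p4 p5 p6 p7).symm ▸ (by linarith), List.forall_mem_cons.2 ⟨(t7W4_ev p0 p1 p2 p3 p4 p5 p6 p7).symm ▸ (by linarith), List.forall_mem_cons.2 ⟨(t7W5_ev p0 p1 p2 p3 p4 p5 p6 p7).symm ▸ (by linarith), List.forall_mem_cons.2 ⟨(t7W6_ev p0 p1 p2 p3 p4 p5 p6 p7).symm ▸ (by linarith), List.forall_mem_cons.2 ⟨(t7N11_ev p0 p1 p2 p3 p4 p5 p6 p7).symm ▸ (by linarith), List.forall_mem_cons.2 ⟨(t7N12_ev p0 p1 p2 p3 p4 p5 p6 p7).symm ▸ (by linarith), List.forall_mem_cons.2 ⟨(t7N13_ev p0 p1 p2 p3 p4 p5 p6 p7).symm ▸ (by linarith), List.forall_mem_cons.2 ⟨(t7N14_ev p0 p1 p2 p3 p4 p5 p6 p7).symm ▸ (by linarith), List.forall_mem_cons.2 ⟨(t7N15_ev p0 p1 p2 p3 p4 p5 p6 p7).symm ▸ (by linarith), List.forall_mem_cons.2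 ⟨(t7N16_ev p0 p1 p2 p3 p4 p5 p6 p7).symm ▸ (by linarith), List.forall_mem_cons.2 ⟨(t7N22_ev p0 p1 p2 p3 p4 p5 p6 p7).symm ▸ (by linarith), List.forall_mem_cons.2 ⟨(t7N23_ev p0 p1 p2 p3 p4 p5 p6 p7).symm ▸ (by linarith), List.forall_mem_cons.2 ⟨(t7N24_ev p0 p1 p2 p3 p4 p5 p6 p7).symm ▸ (by linarith), List.forall_mem_cons.2 ⟨(t7N25_ev p0 p1 p2 p3 p4 p5 p6 p7).symm ▸ (by linarith), List.forall_mem_cons.2 ⟨(t7N26_ev p0 p1 p2 p3 p4 p5 p6 p7).symm ▸ (by linarith), List.forall_mem_cons.2 ⟨(t7N33_ev p0 p1 p2 p3 p4 p5 p6 p7).symm ▸ (by linarith), List.forall_mem_cons.2 ⟨(t7N34_ev p0 p1 p2 p3 p4 p5 p6 p7).symm ▸ (by linarith), List.forall_mem_cons.2 ⟨(t7N35_ev p0 p1 p2 p3 p4 p5 p6 p7).symm ▸ (by linarith), List.forall_mem_cons.2 ⟨(t7N36_ev p0 p1 p2 p3 p4 p5 p6 p7).symm ▸ (by linarith), List.forall_mem_cons.2 ⟨(t7N44_ev p0 p1 p2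 p3 p4 p5 p6 p7).symm ▸ (by linarith), List.forall_mem_cons.2 ⟨(t7N45_ev p0 p1 p2 p3 p4 p5 p6 p7).symm ▸ (by linarith), List.forall_mem_cons.2 ⟨(t7N46_ev p0 p1 p2 p3 p4 p5 p6 p7).symm ▸ (by linarith), List.forall_mem_cons.2 ⟨(t7N55_ev p0 p1 p2 p3 p4 p5 p6 p7).symm ▸ (by linarith), List.forall_mem_cons.2 ⟨(t7N56_ev p0 p1 p2 p3 p4 p5 p6 p7).symm ▸ (by linarith), List.forall_mem_cons.2 ⟨(t7N66_ev p0 p1 p2 p3 p4 p5 p6 p7).symm ▸ (by linarith), List.forall_mem_nil _⟩⟩⟩⟩⟩⟩⟩⟩⟩⟩⟩⟩⟩⟩⟩⟩⟩⟩⟩⟩⟩⟩⟩⟩⟩⟩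

end Pool.Agent.Lib.MP_fe2d2a_anLP
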