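import Mathlib
import Pool.Agent.Lib.MP_fe2d2a_anLP.Refl

/-!
# Evans problem: the quadratic forms for `n = 8`
-/

set_option autoImplicit false
set_option maxRecDepth 100000
set_option linter.unusedSimpArgs false

namespace Pool.Agent.Lib.MP_fe2d2a_anLP

def t8c1 : T :=
  T.b (T.b (T.b (T.b (T.n 8589934592 16) (T.p 4311744512 672)) (T.b (T.n 4295032832 1120) (T.b (T.p 4294967552 224) (T.n 536870912 768)))) (T.b (T.b (T.p 269484032 7168) (T.n 268439552 3584)) (T.b (T.n 33554432 6272) (T.b (T.p 16842752 15680) (T.n 16777217 224))))) (T.b (T.b (T.b (T.n 2097152 12544) (T.p 1048592 3584)) (T.b (T.n 65792 15680) (T.b (T.p 65537 1120) (T.p 8192 12544)))) (T.b (T.b (T.n 4112 7168) (T.p 512 6272)) (T.b (T.n 257 672) (T.b (T.p 32 768) (T.p 2 16)))))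

def t8c2 : T :=
  T.b (T.b (T.b (T.b (T.p 8589934592 120) (T.n 4311744512 3584)) (T.b (T.p 4295032832 3360) (T.n 4294967297 16))) (T.b (T.b (T.p 536870912 4096) (T.n 269484032 21504)) (T.b (T.p 268435472 1024) (T.p 33554432 18816)))) (T.b (T.b (T.b (T.n 16777472 12544) (T.p 1052672 50176)) (T.b (T.n 131072 39200) (T.p 65537 3360))) (T.b (T.b (T.n 4112 21504) (T.p 512 18816)) (T.b (T.n 257 3584) (T.b (T.p 32 4096) (T.p 2 120)))))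

def t8c3 : T :=
  T.b (T.b (T.b (T.b (T.n 8589934592 560) (T.p 4311744512 10976)) (T.b (T.n 4295032832 3360) (T.b (T.n 4294967552 1120) (T.n 536870912 12544)))) (T.b (T.b (T.p 269484032 21504) (T.p 268439552 17920)) (T.b (T.n 33554432 18816) (T.b (T.n 16842752 78400) (T.p 16777217 1120))))) (T.b (T.b (T.b (T.p 2097152 62720) (T.n 1048592 17920)) (T.b (T.p 65792 78400) (T.b (T.p 65537 3360) (T.n 8192 62720)))) (T.b (T.b (T.n 4112 21504) (T.p 512 18816)) (T.b (T.n 257 10976) (T.b (T.p 32 12544) (T.p 2 560)))))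

def t8c4 : T :=
  T.b (T.b (T.b (T.b (T.p 8589934592 1820) (T.b (T.n 4311744512 20384) (T.n 4295032832 5040))) (T.b (T.p 4294967552 1120) (T.b (T.p 4294967297 56) (T.p 536870912 23296)))) (T.b (T.b (T.p 269484032 32256) (T.b (T.n 268439552 17920) (T.n 268435472 3584))) (T.b (T.n 33554432 28224) (T.b (T.p 16842752 78400) (T.p 16777472 43904))))) (T.b (T.b (T.b (T.p 16777217 1120) (T.b (T.n 2097152 62720) (T.n 1052672 175616))) (T.b (T.n 1048592 17920) (T.b (T.p 131072 137200) (T.p 65792 78400)))) (T.b (T.b (T.n 65537 5040) (T.b (T.n 8192 62720) (T.p 4112 32256))) (T.b (T.b (T.n 512 28224) (T.n 257 20384)) (T.b (T.p 32 23296) (T.p 2 1820)))))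

def t8c5 : T :=
  T.b (T.b (T.b (T.b (T.n 8589934592 4368) (T.p 4311744512 20384)) (T.b (T.p 4295032832 16800) (T.b (T.p 4294967552 2016) (T.n 536870912 23296)))) (T.b (T.b (T.n 269484032 107520) (T.n 268439552 32256)) (T.b (T.p 33554432 94080) (T.b (T.p 16842752 141120) (T.n 16777217 2016))))) (T.b (T.b (T.b (T.n 2097152 112896) (T.p 1048592 32256)) (T.b (T.n 65792 141120) (T.b (T.n 65537 16800) (T.p 8192 112896)))) (T.b (T.b (T.p 4112 107520) (T.n 512 94080)) (T.b (T.n 257 20384) (T.b (T.p 32 23296) (T.p 2 4368)))))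

def t8c6 : T :=
  T.b (T.b (T.b (T.b (T.p 8589934592 8008) (T.n 4295032832 12320)) (T.b (T.n 4294967552 3584) (T.b (T.n 4294967297 112) (T.p 269484032 78848)))) (T.b (T.b (T.p 268439552 57344) (T.p 268435472 7168)) (T.b (T.n 33554432 68992) (T.b (T.n 16842752 250880) (T.n 16777472 87808))))) (T.b (T.b (T.b (T.n 16777217 3584) (T.p 2097152 200704)) (T.b (T.p 1052672 351232) (T.b (T.p 1048592 57344) (T.n 131072 274400)))) (T.b (T.b (T.n 65792 250880) (T.b (T.n 65537 12320) (T.p 8192 200704))) (T.b (T.p 4112 78848) (T.b (T.n 512 68992) (T.p 2 8008)))))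

def t8c7 : T :=
  T.b (T.b (T.b (T.b (T.n 8589934592 11440) (T.n 4311744512 32032)) (T.b (T.n 4295032832 12320) (T.b (T.n 4294967552 1120) (T.p 536870912 36608)))) (T.b (T.b (T.p 269484032 78848) (T.p 268439552 17920)) (T.b (T.n 33554432 68992) (T.b (T.n 16842752 78400) (T.p 16777217 1120))))) (T.b (T.b (T.b (T.p 2097152 62720) (T.n 1048592 17920)) (T.b (T.p 65792 78400) (T.b (T.p 65537 12320) (T.n 8192 62720)))) (T.b (T.b (T.n 4112 78848) (T.p 512 68992)) (T.b (T.p 257 32032) (T.b (T.n 32 36608) (T.p 2 11440)))))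

def t8c8 : T :=
  T.b (T.b (T.b (T.b (T.p 8589934592 12870) (T.b (T.p 4311744512 48048) (T.p 4295032832 27720))) (T.b (T.p 4294967552 5040) (T.b (T.p 4294967297 140) (T.n 536870912 54912)))) (T.b (T.b (T.n 269484032 177408) (T.b (T.n 268439552 80640) (T.n 268435472 8960))) (T.b (T.p 33554432 155232) (T.b (T.p 16842752 352800) (T.p 16777472 109760))))) (T.b (T.b (T.b (T.p 16777217 5040) (T.b (T.n 2097152 282240) (T.n 1052672 439040))) (T.b (T.n 1048592 80640) (T.b (T.p 131072 343000) (T.p 65792 352800)))) (T.b (T.b (T.p 65537 27720) (T.b (T.n 8192 282240) (T.n 4112 177408))) (T.b (T.b (T.p 512 155232) (T.p 257 48048)) (T.b (T.n 32 54912) (T.p 2 12870)))))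

def t8W0 : T :=
  T.b (T.b (T.b (T.b (T.p 4563402752 16) (T.n 4296015872 336)) (T.b (T.p 4294971392 560) (T.b (T.n 4294967312 112) (T.p 285212672 448)))) (T.b (T.b (T.n 268500992 3360) (T.p 268435712 2240)) (T.b (T.n 268435457 112) (T.b (T.p 17825792 3136) (T.n 16781312 9408))))) (T.b (T.b (T.b (T.p 16777232 2240) (T.p 1114112 7840)) (T.b (T.n 1048832 9408) (T.b (T.p 1048577 560) (T.p 69632 7840)))) (T.b (T.b (T.n 65552 3360) (T.p 4352 3136)) (T.b (T.n 4097 336) (T.b (T.p 272 448) (T.p 17 16)))))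

def t8W1 : T :=
  T.b (T.b (T.b (T.b (T.n 4563402752 224) (T.p 4296015872 3360)) (T.b (T.n 4294971392 3360) (T.b (T.p 4294967312 224) (T.n 285212672 4480)))) (T.b (T.b (T.p 268500992 20160) (T.n 268435712 4480)) (T.b (T.n 268435457 224) (T.b (T.n 17825792 18816) (T.p 16781312 18816))))) (T.b (T.b (T.b (T.p 16777232 4480) (T.n 1114112 15680)) (T.b (T.n 1048832 18816) (T.b (T.p 1048577 3360) (T.p 69632 15680)))) (T.b (T.b (T.n 65552 20160) (T.p 4352 18816)) (T.b (T.n 4097 3360) (T.b (T.p 272 4480) (T.p 17 224)))))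

def t8W2 : T :=
  T.b (T.b (T.b (T.b (T.p 4563402752 1456) (T.n 4296015872 14448)) (T.b (T.p 4294971392 6160) (T.b (T.p 4294967312 560) (T.p 285212672 19264)))) (T.b (T.b (T.n 268500992 36960) (T.n 268435712 11200)) (T.b (T.p 268435457 560) (T.b (T.p 17825792 34496) (T.p 16781312 47040))))) (T.b (T.b (T.b (T.n 16777232 11200) (T.n 1114112 39200)) (T.b (T.p 1048832 47040) (T.b (T.p 1048577 6160) (T.n 69632 39200)))) (T.b (T.b (T.n 65552 36960) (T.p 4352 34496)) (T.b (T.n 4097 14448) (T.b (T.p 272 19264) (T.p 17 1456)))))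

def t8W3 : T :=
  T.b (T.b (T.b (T.b (T.n 4563402752 5824) (T.p 4296015872 33600)) (T.b (T.p 4294971392 2240) (T.b (T.n 4294967312 1344) (T.n 285212672 44800)))) (T.b (T.b (T.n 268500992 13440) (T.p 268435712 26880)) (T.b (T.p 268435457 1344) (T.b (T.p 17825792 12544) (T.n 16781312 112896))))) (T.b (T.b (T.b (T.n 16777232 26880) (T.p 1114112 94080)) (T.b (T.p 1048832 112896) (T.b (T.n 1048577 2240) (T.n 69632 94080)))) (T.b (T.b (T.p 65552 13440) (T.n 4352 12544)) (T.b (T.n 4097 33600) (T.b (T.p 272 44800) (T.p 17 5824)))))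

def t8W4 : T :=
  T.b (T.b (T.b (T.b (T.p 4563402752 16016) (T.n 4296015872 40656)) (T.b (T.n 4294971392 21840) (T.b (T.n 4294967312 1008) (T.p 285212672 54208)))) (T.b (T.b (T.p 268500992 131040) (T.p 268435712 20160)) (T.b (T.n 268435457 1008) (T.b (T.n 17825792 122304) (T.n 16781312 84672))))) (T.b (T.b (T.b (T.p 16777232 20160) (T.p 1114112 70560)) (T.b (T.n 1048832 84672) (T.b (T.n 1048577 21840) (T.p 69632 70560)))) (T.b (T.b (T.p 65552 131040) (T.n 4352 122304)) (T.b (T.n 4097 40656) (T.b (T.p 272 54208) (T.p 17 16016)))))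

def t8W5 : T :=
  T.b (T.b (T.b (T.b (T.n 4563402752 32032) (T.p 4296015872 7392)) (T.b (T.p 4294971392 21280) (T.b (T.p 4294967312 3360) (T.n 285212672 9856)))) (T.b (T.b (T.n 268500992 127680) (T.n 268435712 67200)) (T.b (T.n 268435457 3360) (T.b (T.p 17825792 119168) (T.p 16781312 282240))))) (T.b (T.b (T.b (T.p 16777232 67200) (T.n 1114112 235200)) (T.b (T.n 1048832 282240) (T.b (T.n 1048577 21280) (T.p 69632 235200)))) (T.b (T.b (T.p 65552 127680) (T.n 4352 119168)) (T.b (T.n 4097 7392) (T.b (T.p 272 9856) (T.p 17 32032)))))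

def t8W6 : T :=
  T.b (T.b (T.b (T.b (T.p 4563402752 48048) (T.p 4296015872 55440)) (T.b (T.p 4294971392 15120) (T.b (T.p 4294967312 560) (T.n 285212672 73920)))) (T.b (T.b (T.n 268500992 90720) (T.n 268435712 11200)) (T.b (T.p 268435457 560) (T.b (T.p 17825792 84672) (T.p 16781312 47040))))) (T.b (T.b (T.b (T.n 16777232 11200) (T.n 1114112 39200)) (T.b (T.p 1048832 47040) (T.b (T.p 1048577 15120) (T.n 69632 39200)))) (T.b (T.b (T.n 65552 90720) (T.p 4352 84672)) (T.b (T.p 4097 55440) (T.b (T.n 272 73920) (T.p 17 48048)))))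

def t8W7 : T :=
  T.b (T.b (T.b (T.b (T.n 4563402752 54912) (T.n 4296015872 88704)) (T.b (T.n 4294971392 40320) (T.b (T.n 4294967312 4480) (T.p 285212672 118272)))) (T.b (T.b (T.p 268500992 241920) (T.p 268435712 89600)) (T.b (T.p 268435457 4480) (T.b (T.n 17825792 225792) (T.n 16781312 376320))))) (T.b (T.b (T.b (T.n 16777232 89600) (T.p 1114112 313600)) (T.b (T.p 1048832 376320) (T.b (T.p 1048577 40320) (T.n 69632 313600)))) (T.b (T.b (T.n 65552 241920) (T.p 4352 225792)) (T.b (T.p 4097 88704) (T.b (T.n 272 118272) (T.p 17 54912)))))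

def t8N11 : T :=
  T.b (T.n 4311744512 1) (T.p 536870912 1)

def t8N12 : T :=
  T.b (T.n 4296015872 1) (T.p 285212672 1)

def t8N13 : T :=
  T.b (T.n 4295032832 1) (T.p 269484032 1)

def t8N14 : T :=
  T.b (T.n 4294971392 1) (T.p 268500992 1)

def t8N15 : T :=
  T.b (T.n 4294967552 1) (T.p 268439552 1)

def t8N16 : T :=
  T.b (T.n 4294967312 1) (T.p 268435712 1)

def t8N17 : T :=
  T.b (T.n 4294967297 1) (T.p 268435472 1)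

def t8N22 : T :=
  T.b (T.n 269484032 1) (T.p 33554432 1)

def t8N23 : T :=
  T.b (T.n 268500992 1) (T.p 17825792 1)

def t8N24 : T :=
  T.b (T.n 268439552 1) (T.p 16842752 1)

def t8N25 : T :=
  T.b (T.n 268435712 1) (T.p 16781312 1)

def t8N26 : T :=
  T.b (T.n 268435472 1) (T.p 16777472 1)

def t8N27 : T :=
  T.b (T.n 268435457 1) (T.p 16777232 1)

def t8N33 : T :=
  T.b (T.n 16842752 1) (T.p 2097152 1)

def t8N34 : T :=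
  T.b (T.n 16781312 1) (T.p 1114112 1)

def t8N35 : T :=
  T.b (T.n 16777472 1) (T.p 1052672 1)

def t8N36 : T :=
  T.b (T.n 16777232 1) (T.p 1048832 1)

def t8N37 : T :=
  T.b (T.n 16777217 1) (T.p 1048592 1)

def t8N44 : T :=
  T.b (T.n 1052672 1) (T.p 131072 1)

def t8N45 : T :=
  T.b (T.n 1048832 1) (T.p 69632 1)

def t8N46 : T :=
  T.b (T.n 1048592 1) (T.p 65792 1)

def t8N47 : T :=
  T.b (T.n 1048577 1) (T.p 65552 1)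

def t8N55 : T :=
  T.b (T.n 65792 1) (T.p 8192 1)

def t8N56 : T :=
  T.b (T.n 65552 1) (T.p 4352 1)

def t8N57 : T :=
  T.b (T.n 65537 1) (T.p 4112 1)

def t8N66 : T :=
  T.b (T.n 4112 1) (T.p 512 1)

def t8N67 : T :=
  T.b (T.n 4097 1) (T.p 272 1)

def t8N77 : T :=
  T.b (T.n 257 1) (T.p 32 1)

def L8 : List T := [t8c1, t8c2, t8c3, t8c4, t8c5, t8c6, t8c7, t8c8, t8W0, t8W1]

def M8 : List T := [t8W2, t8W3, t8W4, t8W5, t8W6, t8W7, t8N11, t8N12, t8N13, t8N14, t8N15, t8N16, t8N17, t8N22, t8N23, t8N24, t8N25, t8N26, t8N27, t8N33, t8N34, t8N35, t8N36, t8N37, t8N44, t8N45, t8N46, t8N47, t8N55, t8N56, t8N57, t8N66, t8N67, t8N77]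

theorem t8c1_ev (p0 p1 p2 p3 p4 p5 p6 p7 p8 : ℝ) :
    evT [p8, p7, p6, p5, p4, p3, p2, p1, p0] t8c1 =
    -16 * p0 ^ 2 + 672 * p0 * p2 - 1120 * p0 * p4 + 224 * p0 * p6 - 768 * p1 ^ 2 + 7168 * p1 * p3 - 3584 * p1 * p5 - 6272 * p2 ^ 2 + 15680 * p2 * p4 - 224 * p2 * p8 - 12544 * p3 ^ 2 + 3584 * p3 * p7 - 15680 * p4 * p6 + 1120 * p4 * p8 + 12544 * p5 ^ 2 - 7168 * p5 * p7 + 6272 * p6 ^ 2 - 672 * p6 * p8 + 768 * p7 ^ 2 + 16 * p8 ^ 2 := by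
  simp only [t8c1, evT, evK, Nat.reduceMod, Nat.reduceDiv, pow_zero, pow_one, one_mul, mul_one,
    Nat.cast_ofNat, Nat.cast_one]
  ring

theorem t8c2_ev (p0 p1 p2 p3 p4 p5 p6 p7 p8 : ℝ) :
    evT [p8, p7, p6, p5, p4, p3, p2, p1, p0] t8c2 =
    120 * p0 ^ 2 - 3584 * p0 * p2 + 3360 * p0 * p4 - 16 * p0 * p8 + 4096 * p1 ^ 2 - 21504 * p1 * p3 + 1024 * p1 * p7 + 18816 * p2 ^ 2 - 12544 * p2 * p6 + 50176 * p3 * p5 - 39200 * p4 ^ 2 + 3360 * p4 * p8 - 21504 * p5 * p7 + 18816 * p6 ^ 2 - 3584 * p6 * p8 + 4096 * p7 ^ 2 + 120 * p8 ^ 2 := by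
  simp only [t8c2, evT, evK, Nat.reduceMod, Nat.reduceDiv, pow_zero, pow_one, one_mul, mul_one,
    Nat.cast_ofNat, Nat.cast_one]
  ring

theorem t8c3_ev (p0 p1 p2 p3 p4 p5 p6 p7 p8 : ℝ) :
    evT [p8, p7, p6, p5, p4, p3, p2, p1, p0] t8c3 =
    -560 * p0 ^ 2 + 10976 * p0 * p2 - 3360 * p0 * p4 - 1120 * p0 * p6 - 12544 * p1 ^ 2 + 21504 * p1 * p3 + 17920 * p1 * p5 - 18816 * p2 ^ 2 - 78400 * p2 * p4 + 1120 * p2 * p8 + 62720 * p3 ^ 2 - 17920 * p3 * p7 + 78400 * p4 * p6 + 3360 * p4 * p8 - 62720 * p5 ^ 2 - 21504 * p5 * p7 + 18816 * p6 ^ 2 - 10976 * p6 * p8 + 12544 * p7 ^ 2 + 560 * p8 ^ 2 := by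
  simp only [t8c3, evT, evK, Nat.reduceMod, Nat.reduceDiv, pow_zero, pow_one, one_mul, mul_one,
    Nat.cast_ofNat, Nat.cast_one]
  ring

theorem t8c4_ev (p0 p1 p2 p3 p4 p5 p6 p7 p8 : ℝ) :
    evT [p8, p7, p6, p5, p4, p3, p2, p1, p0] t8c4 =
    1820 * p0 ^ 2 - 20384 * p0 * p2 - 5040 * p0 * p4 + 1120 * p0 * p6 + 56 * p0 * p8 + 23296 * p1 ^ 2 + 32256 * p1 * p3 - 17920 * p1 * p5 - 3584 * p1 * p7 - 28224 * p2 ^ 2 + 78400 * p2 * p4 + 43904 * p2 * p6 + 1120 * p2 * p8 - 62720 * p3 ^ 2 - 175616 * p3 * p5 - 17920 * p3 * p7 + 137200 * p4 ^ 2 + 78400 * p4 * p6 - 5040 * p4 * p8 - 62720 * p5 ^ 2 + 32256 * p5 * p7 - 28224 * p6 ^ 2 - 20384 * p6 * p8 + 23296 * p7 ^ 2 + 1820 * p8 ^ 2 := by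
  simp only [t8c4, evT, evK, Nat.reduceMod, Nat.reduceDiv, pow_zero, pow_one, one_mul, mul_one,
    Nat.cast_ofNat, Nat.cast_one]
  ring

theorem t8c5_ev (p0 p1 p2 p3 p4 p5 p6 p7 p8 : ℝ) :
    evT [p8, p7, p6, p5, p4, p3, p2, p1, p0] t8c5 =
    -4368 * p0 ^ 2 + 20384 * p0 * p2 + 16800 * p0 * p4 + 2016 * p0 * p6 - 23296 * p1 ^ 2 - 107520 * p1 * p3 - 32256 * p1 * p5 + 94080 * p2 ^ 2 + 141120 * p2 * p4 - 2016 * p2 * p8 - 112896 * p3 ^ 2 + 32256 * p3 * p7 - 141120 * p4 * p6 - 16800 * p4 * p8 + 112896 * p5 ^ 2 + 107520 * p5 * p7 - 94080 * p6 ^ 2 - 20384 * p6 * p8 + 23296 * p7 ^ 2 + 4368 * p8 ^ 2 := by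
  simp only [t8c5, evT, evK, Nat.reduceMod, Nat.reduceDiv, pow_zero, pow_one, one_mul, mul_one,
    Nat.cast_ofNat, Nat.cast_one]
  ring

theorem t8c6_ev (p0 p1 p2 p3 p4 p5 p6 p7 p8 : ℝ) :
    evT [p8, p7, p6, p5, p4, p3, p2, p1, p0] t8c6 =
    8008 * p0 ^ 2 - 12320 * p0 * p4 - 3584 * p0 * p6 - 112 * p0 * p8 + 78848 * p1 * p3 + 57344 * p1 * p5 + 7168 * p1 * p7 - 68992 * p2 ^ 2 - 250880 * p2 * p4 - 87808 * p2 * p6 - 3584 * p2 * p8 + 200704 * p3 ^ 2 + 351232 * p3 * p5 + 57344 * p3 * p7 - 274400 * p4 ^ 2 - 250880 * p4 * p6 - 12320 * p4 * p8 + 200704 * p5 ^ 2 + 78848 * p5 * p7 - 68992 * p6 ^ 2 + 8008 * p8 ^ 2 := by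
  simp only [t8c6, evT, evK, Nat.reduceMod, Nat.reduceDiv, pow_zero, pow_one, one_mul, mul_one,
    Nat.cast_ofNat, Nat.cast_one]
  ring

theorem t8c7_ev (p0 p1 p2 p3 p4 p5 p6 p7 p8 : ℝ) :
    evT [p8, p7, p6, p5, p4, p3, p2, p1, p0] t8c7 =
    -11440 * p0 ^ 2 - 32032 * p0 * p2 - 12320 * p0 * p4 - 1120 * p0 * p6 + 36608 * p1 ^ 2 + 78848 * p1 * p3 + 17920 * p1 * p5 - 68992 * p2 ^ 2 - 78400 * p2 * p4 + 1120 * p2 * p8 + 62720 * p3 ^ 2 - 17920 * p3 * p7 + 78400 * p4 * p6 + 12320 * p4 * p8 - 62720 * p5 ^ 2 - 78848 * p5 * p7 + 68992 * p6 ^ 2 + 32032 * p6 * p8 - 36608 * p7 ^ 2 + 11440 * p8 ^ 2 := by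
  simp only [t8c7, evT, evK, Nat.reduceMod, Nat.reduceDiv, pow_zero, pow_one, one_mul, mul_one,
    Nat.cast_ofNat, Nat.cast_one]
  ring

theorem t8c8_ev (p0 p1 p2 p3 p4 p5 p6 p7 p8 : ℝ) :
    evT [p8, p7, p6, p5, p4, p3, p2, p1, p0] t8c8 =
    12870 * p0 ^ 2 + 48048 * p0 * p2 + 27720 * p0 * p4 + 5040 * p0 * p6 + 140 * p0 * p8 - 54912 * p1 ^ 2 - 177408 * p1 * p3 - 80640 * p1 * p5 - 8960 * p1 * p7 + 155232 * p2 ^ 2 + 352800 * p2 * p4 + 109760 * p2 * p6 + 5040 * p2 * p8 - 282240 * p3 ^ 2 - 439040 * p3 * p5 - 80640 * p3 * p7 + 343000 * p4 ^ 2 + 352800 * p4 * p6 + 27720 * p4 * p8 - 282240 * p5 ^ 2 - 177408 * p5 * p7 + 155232 * p6 ^ 2 + 48048 * p6 * p8 - 54912 * p7 ^ 2 + 12870 * p8 ^ 2 := by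
  simp only [t8c8, evT, evK, Nat.reduceMod, Nat.reduceDiv, pow_zero, pow_one, one_mul, mul_one,
    Nat.cast_ofNat, Nat.cast_one]
  ring

theorem t8W0_ev (p0 p1 p2 p3 p4 p5 p6 p7 p8 : ℝ) :
    evT [p8, p7, p6, p5, p4, p3, p2, p1, p0] t8W0 =
    16 * p0 * p1 - 336 * p0 * p3 + 560 * p0 * p5 - 112 * p0 * p7 + 448 * p1 * p2 - 3360 * p1 * p4 + 2240 * p1 * p6 - 112 * p1 * p8 + 3136 * p2 * p3 - 9408 * p2 * p5 + 2240 * p2 * p7 + 7840 * p3 * p4 - 9408 * p3 * p6 + 560 * p3 * p8 + 7840 * p4 * p5 - 3360 * p4 * p7 + 3136 * p5 * p6 - 336 * p5 * p8 + 448 * p6 * p7 + 16 * p7 * p8 := by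
  simp only [t8W0, evT, evK, Nat.reduceMod, Nat.reduceDiv, pow_zero, pow_one, one_mul, mul_one,
    Nat.cast_ofNat, Nat.cast_one]
  ring

theorem t8W1_ev (p0 p1 p2 p3 p4 p5 p6 p7 p8 : ℝ) :
    evT [p8, p7, p6, p5, p4, p3, p2, p1, p0] t8W1 =
    -224 * p0 * p1 + 3360 * p0 * p3 - 3360 * p0 * p5 + 224 * p0 * p7 - 4480 * p1 * p2 + 20160 * p1 * p4 - 4480 * p1 * p6 - 224 * p1 * p8 - 18816 * p2 * p3 + 18816 * p2 * p5 + 4480 * p2 * p7 - 15680 * p3 * p4 - 18816 * p3 * p6 + 3360 * p3 * p8 + 15680 * p4 * p5 - 20160 * p4 * p7 + 18816 * p5 * p6 - 3360 * p5 * p8 + 4480 * p6 * p7 + 224 * p7 * p8 := by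
  simp only [t8W1, evT, evK, Nat.reduceMod, Nat.reduceDiv, pow_zero, pow_one, one_mul, mul_one,
    Nat.cast_ofNat, Nat.cast_one]
  ring

theorem t8W2_ev (p0 p1 p2 p3 p4 p5 p6 p7 p8 : ℝ) :
    evT [p8, p7, p6, p5, p4, p3, p2, p1, p0] t8W2 =
    1456 * p0 * p1 - 14448 * p0 * p3 + 6160 * p0 * p5 + 560 * p0 * p7 + 19264 * p1 * p2 - 36960 * p1 * p4 - 11200 * p1 * p6 + 560 * p1 * p8 + 34496 * p2 * p3 + 47040 * p2 * p5 - 11200 * p2 * p7 - 39200 * p3 * p4 + 47040 * p3 * p6 + 6160 * p3 * p8 - 39200 * p4 * p5 - 36960 * p4 * p7 + 34496 * p5 * p6 - 14448 * p5 * p8 + 19264 * p6 * p7 + 1456 * p7 * p8 := by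
  simp only [t8W2, evT, evK, Nat.reduceMod, Nat.reduceDiv, pow_zero, pow_one, one_mul, mul_one,
    Nat.cast_ofNat, Nat.cast_one]
  ring

theorem t8W3_ev (p0 p1 p2 p3 p4 p5 p6 p7 p8 : ℝ) :
    evT [p8, p7, p6, p5, p4, p3, p2, p1, p0] t8W3 =
    -5824 * p0 * p1 + 33600 * p0 * p3 + 2240 * p0 * p5 - 1344 * p0 * p7 - 44800 * p1 * p2 - 13440 * p1 * p4 + 26880 * p1 * p6 + 1344 * p1 * p8 + 12544 * p2 * p3 - 112896 * p2 * p5 - 26880 * p2 * p7 + 94080 * p3 * p4 + 112896 * p3 * p6 - 2240 * p3 * p8 - 94080 * p4 * p5 + 13440 * p4 * p7 - 12544 * p5 * p6 - 33600 * p5 * p8 + 44800 * p6 * p7 + 5824 * p7 * p8 := by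
  simp only [t8W3, evT, evK, Nat.reduceMod, Nat.reduceDiv, pow_zero, pow_one, one_mul, mul_one,
    Nat.cast_ofNat, Nat.cast_one]
  ring

theorem t8W4_ev (p0 p1 p2 p3 p4 p5 p6 p7 p8 : ℝ) :
    evT [p8, p7, p6, p5, p4, p3, p2, p1, p0] t8W4 =
    16016 * p0 * p1 - 40656 * p0 * p3 - 21840 * p0 * p5 - 1008 * p0 * p7 + 54208 * p1 * p2 + 131040 * p1 * p4 + 20160 * p1 * p6 - 1008 * p1 * p8 - 122304 * p2 * p3 - 84672 * p2 * p5 + 20160 * p2 * p7 + 70560 * p3 * p4 - 84672 * p3 * p6 - 21840 * p3 * p8 + 70560 * p4 * p5 + 131040 * p4 * p7 - 122304 * p5 * p6 - 40656 * p5 * p8 + 54208 * p6 * p7 + 16016 * p7 * p8 := by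
  simp only [t8W4, evT, evK, Nat.reduceMod, Nat.reduceDiv, pow_zero, pow_one, one_mul, mul_one,
    Nat.cast_ofNat, Nat.cast_one]
  ring

theorem t8W5_ev (p0 p1 p2 p3 p4 p5 p6 p7 p8 : ℝ) :
    evT [p8, p7, p6, p5, p4, p3, p2, p1, p0] t8W5 =
    -32032 * p0 * p1 + 7392 * p0 * p3 + 21280 * p0 * p5 + 3360 * p0 * p7 - 9856 * p1 * p2 - 127680 * p1 * p4 - 67200 * p1 * p6 - 3360 * p1 * p8 + 119168 * p2 * p3 + 282240 * p2 * p5 + 67200 * p2 * p7 - 235200 * p3 * p4 - 282240 * p3 * p6 - 21280 * p3 * p8 + 235200 * p4 * p5 + 127680 * p4 * p7 - 119168 * p5 * p6 - 7392 * p5 * p8 + 9856 * p6 * p7 + 32032 * p7 * p8 := by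
  simp only [t8W5, evT, evK, Nat.reduceMod, Nat.reduceDiv, pow_zero, pow_one, one_mul, mul_one,
    Nat.cast_ofNat, Nat.cast_one]
  ring

theorem t8W6_ev (p0 p1 p2 p3 p4 p5 p6 p7 p8 : ℝ) :
    evT [p8, p7, p6, p5, p4, p3, p2, p1, p0] t8W6 =
    48048 * p0 * p1 + 55440 * p0 * p3 + 15120 * p0 * p5 + 560 * p0 * p7 - 73920 * p1 * p2 - 90720 * p1 * p4 - 11200 * p1 * p6 + 560 * p1 * p8 + 84672 * p2 * p3 + 47040 * p2 * p5 - 11200 * p2 * p7 - 39200 * p3 * p4 + 47040 * p3 * p6 + 15120 * p3 * p8 - 39200 * p4 * p5 - 90720 * p4 * p7 + 84672 * p5 * p6 + 55440 * p5 * p8 - 73920 * p6 * p7 + 48048 * p7 * p8 := by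
  simp only [t8W6, evT, evK, Nat.reduceMod, Nat.reduceDiv, pow_zero, pow_one, one_mul, mul_one,
    Nat.cast_ofNat, Nat.cast_one]
  ring

theorem t8W7_ev (p0 p1 p2 p3 p4 p5 p6 p7 p8 : ℝ) :
    evT [p8, p7, p6, p5, p4, p3, p2, p1, p0] t8W7 =
    -54912 * p0 * p1 - 88704 * p0 * p3 - 40320 * p0 * p5 - 4480 * p0 * p7 + 118272 * p1 * p2 + 241920 * p1 * p4 + 89600 * p1 * p6 + 4480 * p1 * p8 - 225792 * p2 * p3 - 376320 * p2 * p5 - 89600 * p2 * p7 + 313600 * p3 * p4 + 376320 * p3 * p6 + 40320 * p3 * p8 - 313600 * p4 * p5 - 241920 * p4 * p7 + 225792 * p5 * p6 + 88704 * p5 * p8 - 118272 * p6 * p7 + 54912 * p7 * p8 := by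
  simp only [t8W7, evT, evK, Nat.reduceMod, Nat.reduceDiv, pow_zero, pow_one, one_mul, mul_one,
    Nat.cast_ofNat, Nat.cast_one]
  ring

theorem t8N11_ev (p0 p1 p2 p3 p4 p5 p6 p7 p8 : ℝ) :
    evT [p8, p7, p6, p5, p4, p3, p2, p1, p0] t8N11 =
    -1 * p0 * p2 + p1 ^ 2 := by
  simp only [t8N11, evT, evK, Nat.reduceMod, Nat.reduceDiv, pow_zero, pow_one, one_mul, mul_one,
    Nat.cast_ofNat, Nat.cast_one]
  ring

theorem t8N12_ev (p0 p1 p2 p3 p4 p5 p6 p7 p8 : ℝ) :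
    evT [p8, p7, p6, p5, p4, p3, p2, p1, p0] t8N12 =
    -1 * p0 * p3 + p1 * p2 := by
  simp only [t8N12, evT, evK, Nat.reduceMod, Nat.reduceDiv, pow_zero, pow_one, one_mul, mul_one,
    Nat.cast_ofNat, Nat.cast_one]
  ring

theorem t8N13_ev (p0 p1 p2 p3 p4 p5 p6 p7 p8 : ℝ) :
    evT [p8, p7, p6, p5, p4, p3, p2, p1, p0] t8N13 =
    -1 * p0 * p4 + p1 * p3 := by
  simp only [t8N13, evT, evK, Nat.reduceMod, Nat.reduceDiv, pow_zero, pow_one, one_mul, mul_one,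
    Nat.cast_ofNat, Nat.cast_one]
  ring

theorem t8N14_ev (p0 p1 p2 p3 p4 p5 p6 p7 p8 : ℝ) :
    evT [p8, p7, p6, p5, p4, p3, p2, p1, p0] t8N14 =
    -1 * p0 * p5 + p1 * p4 := by
  simp only [t8N14, evT, evK, Nat.reduceMod, Nat.reduceDiv, pow_zero, pow_one, one_mul, mul_one,
    Nat.cast_ofNat, Nat.cast_one]
  ring

theorem t8N15_ev (p0 p1 p2 p3 p4 p5 p6 p7 p8 : ℝ) :
    evT [p8, p7, p6, p5, p4, p3, p2, p1, p0] t8N15 =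
    -1 * p0 * p6 + p1 * p5 := by
  simp only [t8N15, evT, evK, Nat.reduceMod, Nat.reduceDiv, pow_zero, pow_one, one_mul, mul_one,
    Nat.cast_ofNat, Nat.cast_one]
  ring

theorem t8N16_ev (p0 p1 p2 p3 p4 p5 p6 p7 p8 : ℝ) :
    evT [p8, p7, p6, p5, p4, p3, p2, p1, p0] t8N16 =
    -1 * p0 * p7 + p1 * p6 := by
  simp only [t8N16, evT, evK, Nat.reduceMod, Nat.reduceDiv, pow_zero, pow_one, one_mul, mul_one,
    Nat.cast_ofNat, Nat.cast_one]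
  ring

theorem t8N17_ev (p0 p1 p2 p3 p4 p5 p6 p7 p8 : ℝ) :
    evT [p8, p7, p6, p5, p4, p3, p2, p1, p0] t8N17 =
    -1 * p0 * p8 + p1 * p7 := by
  simp only [t8N17, evT, evK, Nat.reduceMod, Nat.reduceDiv, pow_zero, pow_one, one_mul, mul_one,
    Nat.cast_ofNat, Nat.cast_one]
  ring

theorem t8N22_ev (p0 p1 p2 p3 p4 p5 p6 p7 p8 : ℝ) :
    evT [p8, p7, p6, p5, p4, p3, p2, p1, p0] t8N22 =
    -1 * p1 * p3 + p2 ^ 2 := by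
  simp only [t8N22, evT, evK, Nat.reduceMod, Nat.reduceDiv, pow_zero, pow_one, one_mul, mul_one,
    Nat.cast_ofNat, Nat.cast_one]
  ring

theorem t8N23_ev (p0 p1 p2 p3 p4 p5 p6 p7 p8 : ℝ) :
    evT [p8, p7, p6, p5, p4, p3, p2, p1, p0] t8N23 =
    -1 * p1 * p4 + p2 * p3 := by
  simp only [t8N23, evT, evK, Nat.reduceMod, Nat.reduceDiv, pow_zero, pow_one, one_mul, mul_one,
    Nat.cast_ofNat, Nat.cast_one]
  ring

theorem t8N24_ev (p0 p1 p2 p3 p4 p5 p6 p7 p8 : ℝ) :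
    evT [p8, p7, p6, p5, p4, p3, p2, p1, p0] t8N24 =
    -1 * p1 * p5 + p2 * p4 := by
  simp only [t8N24, evT, evK, Nat.reduceMod, Nat.reduceDiv, pow_zero, pow_one, one_mul, mul_one,
    Nat.cast_ofNat, Nat.cast_one]
  ring

theorem t8N25_ev (p0 p1 p2 p3 p4 p5 p6 p7 p8 : ℝ) :
    evT [p8, p7, p6, p5, p4, p3, p2, p1, p0] t8N25 =
    -1 * p1 * p6 + p2 * p5 := by
  simp only [t8N25, evT, evK, Nat.reduceMod, Nat.reduceDiv, pow_zero, pow_one, one_mul, mul_one,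
    Nat.cast_ofNat, Nat.cast_one]
  ring

theorem t8N26_ev (p0 p1 p2 p3 p4 p5 p6 p7 p8 : ℝ) :
    evT [p8, p7, p6, p5, p4, p3, p2, p1, p0] t8N26 =
    -1 * p1 * p7 + p2 * p6 := by
  simp only [t8N26, evT, evK, Nat.reduceMod, Nat.reduceDiv, pow_zero, pow_one, one_mul, mul_one,
    Nat.cast_ofNat, Nat.cast_one]
  ring

theorem t8N27_ev (p0 p1 p2 p3 p4 p5 p6 p7 p8 : ℝ) :
    evT [p8, p7, p6, p5, p4, p3, p2, p1, p0] t8N27 =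
    -1 * p1 * p8 + p2 * p7 := by
  simp only [t8N27, evT, evK, Nat.reduceMod, Nat.reduceDiv, pow_zero, pow_one, one_mul, mul_one,
    Nat.cast_ofNat, Nat.cast_one]
  ring

theorem t8N33_ev (p0 p1 p2 p3 p4 p5 p6 p7 p8 : ℝ) :
    evT [p8, p7, p6, p5, p4, p3, p2, p1, p0] t8N33 =
    -1 * p2 * p4 + p3 ^ 2 := by
  simp only [t8N33, evT, evK, Nat.reduceMod, Nat.reduceDiv, pow_zero, pow_one, one_mul, mul_one,
    Nat.cast_ofNat, Nat.cast_one]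
  ring

theorem t8N34_ev (p0 p1 p2 p3 p4 p5 p6 p7 p8 : ℝ) :
    evT [p8, p7, p6, p5, p4, p3, p2, p1, p0] t8N34 =
    -1 * p2 * p5 + p3 * p4 := by
  simp only [t8N34, evT, evK, Nat.reduceMod, Nat.reduceDiv, pow_zero, pow_one, one_mul, mul_one,
    Nat.cast_ofNat, Nat.cast_one]
  ring

theorem t8N35_ev (p0 p1 p2 p3 p4 p5 p6 p7 p8 : ℝ) :
    evT [p8, p7, p6, p5, p4, p3, p2, p1, p0] t8N35 =
    -1 * p2 * p6 + p3 * p5 := by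
  simp only [t8N35, evT, evK, Nat.reduceMod, Nat.reduceDiv, pow_zero, pow_one, one_mul, mul_one,
    Nat.cast_ofNat, Nat.cast_one]
  ring

theorem t8N36_ev (p0 p1 p2 p3 p4 p5 p6 p7 p8 : ℝ) :
    evT [p8, p7, p6, p5, p4, p3, p2, p1, p0] t8N36 =
    -1 * p2 * p7 + p3 * p6 := by
  simp only [t8N36, evT, evK, Nat.reduceMod, Nat.reduceDiv, pow_zero, pow_one, one_mul, mul_one,
    Nat.cast_ofNat, Nat.cast_one]
  ring

theorem t8N37_ev (p0 p1 p2 p3 p4 p5 p6 p7 p8 : ℝ) :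
    evT [p8, p7, p6, p5, p4, p3, p2, p1, p0] t8N37 =
    -1 * p2 * p8 + p3 * p7 := by
  simp only [t8N37, evT, evK, Nat.reduceMod, Nat.reduceDiv, pow_zero, pow_one, one_mul, mul_one,
    Nat.cast_ofNat, Nat.cast_one]
  ring

theorem t8N44_ev (p0 p1 p2 p3 p4 p5 p6 p7 p8 : ℝ) :
    evT [p8, p7, p6, p5, p4, p3, p2, p1, p0] t8N44 =
    -1 * p3 * p5 + p4 ^ 2 := by
  simp only [t8N44, evT, evK, Nat.reduceMod, Nat.reduceDiv, pow_zero, pow_one, one_mul, mul_one,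
    Nat.cast_ofNat, Nat.cast_one]
  ring

theorem t8N45_ev (p0 p1 p2 p3 p4 p5 p6 p7 p8 : ℝ) :
    evT [p8, p7, p6, p5, p4, p3, p2, p1, p0] t8N45 =
    -1 * p3 * p6 + p4 * p5 := by
  simp only [t8N45, evT, evK, Nat.reduceMod, Nat.reduceDiv, pow_zero, pow_one, one_mul, mul_one,
    Nat.cast_ofNat, Nat.cast_one]
  ring

theorem t8N46_ev (p0 p1 p2 p3 p4 p5 p6 p7 p8 : ℝ) :
    evT [p8, p7, p6, p5, p4, p3, p2, p1, p0] t8N46 =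
    -1 * p3 * p7 + p4 * p6 := by
  simp only [t8N46, evT, evK, Nat.reduceMod, Nat.reduceDiv, pow_zero, pow_one, one_mul, mul_one,
    Nat.cast_ofNat, Nat.cast_one]
  ring

theorem t8N47_ev (p0 p1 p2 p3 p4 p5 p6 p7 p8 : ℝ) :
    evT [p8, p7, p6, p5, p4, p3, p2, p1, p0] t8N47 =
    -1 * p3 * p8 + p4 * p7 := by
  simp only [t8N47, evT, evK, Nat.reduceMod, Nat.reduceDiv, pow_zero, pow_one, one_mul, mul_one,
    Nat.cast_ofNat, Nat.cast_one]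
  ring

theorem t8N55_ev (p0 p1 p2 p3 p4 p5 p6 p7 p8 : ℝ) :
    evT [p8, p7, p6, p5, p4, p3, p2, p1, p0] t8N55 =
    -1 * p4 * p6 + p5 ^ 2 := by
  simp only [t8N55, evT, evK, Nat.reduceMod, Nat.reduceDiv, pow_zero, pow_one, one_mul, mul_one,
    Nat.cast_ofNat, Nat.cast_one]
  ring

theorem t8N56_ev (p0 p1 p2 p3 p4 p5 p6 p7 p8 : ℝ) :
    evT [p8, p7, p6, p5, p4, p3, p2, p1, p0] t8N56 =
    -1 * p4 * p7 + p5 * p6 := by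
  simp only [t8N56, evT, evK, Nat.reduceMod, Nat.reduceDiv, pow_zero, pow_one, one_mul, mul_one,
    Nat.cast_ofNat, Nat.cast_one]
  ring

theorem t8N57_ev (p0 p1 p2 p3 p4 p5 p6 p7 p8 : ℝ) :
    evT [p8, p7, p6, p5, p4, p3, p2, p1, p0] t8N57 =
    -1 * p4 * p8 + p5 * p7 := by
  simp only [t8N57, evT, evK, Nat.reduceMod, Nat.reduceDiv, pow_zero, pow_one, one_mul, mul_one,
    Nat.cast_ofNat, Nat.cast_one]
  ring

theorem t8N66_ev (p0 p1 p2 p3 p4 p5 p6 p7 p8 : ℝ) :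
    evT [p8, p7, p6, p5, p4, p3, p2, p1, p0] t8N66 =
    -1 * p5 * p7 + p6 ^ 2 := by
  simp only [t8N66, evT, evK, Nat.reduceMod, Nat.reduceDiv, pow_zero, pow_one, one_mul, mul_one,
    Nat.cast_ofNat, Nat.cast_one]
  ring

theorem t8N67_ev (p0 p1 p2 p3 p4 p5 p6 p7 p8 : ℝ) :
    evT [p8, p7, p6, p5, p4, p3, p2, p1, p0] t8N67 =
    -1 * p5 * p8 + p6 * p7 := by
  simp only [t8N67, evT, evK, Nat.reduceMod, Nat.reduceDiv, pow_zero, pow_one, one_mul, mul_one,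
    Nat.cast_ofNat, Nat.cast_one]
  ring

theorem t8N77_ev (p0 p1 p2 p3 p4 p5 p6 p7 p8 : ℝ) :
    evT [p8, p7, p6, p5, p4, p3, p2, p1, p0] t8N77 =
    -1 * p6 * p8 + p7 ^ 2 := by
  simp only [t8N77, evT, evK, Nat.reduceMod, Nat.reduceDiv, pow_zero, pow_one, one_mul, mul_one,
    Nat.cast_ofNat, Nat.cast_one]
  ring

/-- Ratios. -/
theorem tr8 {x y z w v : ℝ} (hw : 0 < w) (h1 : 0 ≤ y * z - x * w) (h2 : 0 ≤ w * w - z * v)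
    (hy : 0 ≤ y) (hv : 0 ≤ v) : 0 ≤ y * w - x * v := by
  have h3 := mul_nonneg h1 hv
  have h4 := mul_nonneg h2 hy
  have h5 : 0 ≤ w * (y * w - x * v) := by linarith
  exact nonneg_of_mul_nonneg_right h5 hw

theorem facts8 (p0 p1 p2 p3 p4 p5 p6 p7 p8 : ℝ) (hp0 : 0 < p0) (hp1 : 0 < p1) (hp2 : 0 < p2) (hp3 : 0 < p3) (hp4 : 0 < p4) (hp5 : 0 < p5) (hp6 : 0 < p6) (hp7 : 0 < p7) (hp8 : 0 < p8)
    (hn1 : p0 * p2 ≤ p1 ^ 2)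
    (hn2 : p1 * p3 ≤ p2 ^ 2)
    (hn3 : p2 * p4 ≤ p3 ^ 2)
    (hn4 : p3 * p5 ≤ p4 ^ 2)
    (hn5 : p4 * p6 ≤ p5 ^ 2)
    (hn6 : p5 * p7 ≤ p6 ^ 2)
    (hn7 : p6 * p8 ≤ p7 ^ 2)
    (hc1 : 0 < -16 * p0 ^ 2 + 672 * p0 * p2 - 1120 * p0 * p4 + 224 * p0 * p6 - 768 * p1 ^ 2 + 7168 * p1 * p3 - 3584 * p1 * p5 - 6272 * p2 ^ 2 + 15680 * p2 * p4 - 224 * p2 * p8 - 12544 * p3 ^ 2 + 3584 * p3 * p7 - 15680 * p4 * p6 + 1120 * p4 * p8 + 12544 * p5 ^ 2 - 7168 * p5 * p7 + 6272 * p6 ^ 2 - 672 * p6 * p8 + 768 * p7 ^ 2 + 16 * p8 ^ 2)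
    (hc2 : 0 < 120 * p0 ^ 2 - 3584 * p0 * p2 + 3360 * p0 * p4 - 16 * p0 * p8 + 4096 * p1 ^ 2 - 21504 * p1 * p3 + 1024 * p1 * p7 + 18816 * p2 ^ 2 - 12544 * p2 * p6 + 50176 * p3 * p5 - 39200 * p4 ^ 2 + 3360 * p4 * p8 - 21504 * p5 * p7 + 18816 * p6 ^ 2 - 3584 * p6 * p8 + 4096 * p7 ^ 2 + 120 * p8 ^ 2)
    (hc3 : 0 < -560 * p0 ^ 2 + 10976 * p0 * p2 - 3360 * p0 * p4 - 1120 * p0 * p6 - 12544 * p1 ^ 2 + 21504 * p1 * p3 + 17920 * p1 * p5 - 18816 * p2 ^ 2 - 78400 * p2 * p4 + 1120 * p2 * p8 + 62720 * p3 ^ 2 - 17920 * p3 * p7 + 78400 * p4 * p6 + 3360 * p4 * p8 - 62720 * p5 ^ 2 - 21504 * p5 * p7 + 18816 * p6 ^ 2 - 10976 * p6 * p8 + 12544 * p7 ^ 2 + 560 * p8 ^ 2)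
    (hc4 : 0 < 1820 * p0 ^ 2 - 20384 * p0 * p2 - 5040 * p0 * p4 + 1120 * p0 * p6 + 56 * p0 * p8 + 23296 * p1 ^ 2 + 32256 * p1 * p3 - 17920 * p1 * p5 - 3584 * p1 * p7 - 28224 * p2 ^ 2 + 78400 * p2 * p4 + 43904 * p2 * p6 + 1120 * p2 * p8 - 62720 * p3 ^ 2 - 175616 * p3 * p5 - 17920 * p3 * p7 + 137200 * p4 ^ 2 + 78400 * p4 * p6 - 5040 * p4 * p8 - 62720 * p5 ^ 2 + 32256 * p5 * p7 - 28224 * p6 ^ 2 - 20384 * p6 * p8 + 23296 * p7 ^ 2 + 1820 * p8 ^ 2)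
    (hc5 : 0 < -4368 * p0 ^ 2 + 20384 * p0 * p2 + 16800 * p0 * p4 + 2016 * p0 * p6 - 23296 * p1 ^ 2 - 107520 * p1 * p3 - 32256 * p1 * p5 + 94080 * p2 ^ 2 + 141120 * p2 * p4 - 2016 * p2 * p8 - 112896 * p3 ^ 2 + 32256 * p3 * p7 - 141120 * p4 * p6 - 16800 * p4 * p8 + 112896 * p5 ^ 2 + 107520 * p5 * p7 - 94080 * p6 ^ 2 - 20384 * p6 * p8 + 23296 * p7 ^ 2 + 4368 * p8 ^ 2)
    (hc6 : 0 < 8008 * p0 ^ 2 - 12320 * p0 * p4 - 3584 * p0 * p6 - 112 * p0 * p8 + 78848 * p1 * p3 + 57344 * p1 * p5 + 7168 * p1 * p7 - 68992 * p2 ^ 2 - 250880 * p2 * p4 - 87808 * p2 * p6 - 3584 * p2 * p8 + 200704 * p3 ^ 2 + 351232 * p3 * p5 + 57344 * p3 * p7 - 274400 * p4 ^ 2 - 250880 * p4 * p6 - 12320 * p4 * p8 + 200704 * p5 ^ 2 + 78848 * p5 * p7 - 68992 * p6 ^ 2 + 8008 * p8 ^ 2)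
    (hc7 : 0 < -11440 * p0 ^ 2 - 32032 * p0 * p2 - 12320 * p0 * p4 - 1120 * p0 * p6 + 36608 * p1 ^ 2 + 78848 * p1 * p3 + 17920 * p1 * p5 - 68992 * p2 ^ 2 - 78400 * p2 * p4 + 1120 * p2 * p8 + 62720 * p3 ^ 2 - 17920 * p3 * p7 + 78400 * p4 * p6 + 12320 * p4 * p8 - 62720 * p5 ^ 2 - 78848 * p5 * p7 + 68992 * p6 ^ 2 + 32032 * p6 * p8 - 36608 * p7 ^ 2 + 11440 * p8 ^ 2)
    (hc8 : 0 < 12870 * p0 ^ 2 + 48048 * p0 * p2 + 27720 * p0 * p4 + 5040 * p0 * p6 + 140 * p0 * p8 - 54912 * p1 ^ 2 - 177408 * p1 * p3 - 80640 * p1 * p5 - 8960 * p1 * p7 + 155232 * p2 ^ 2 + 352800 * p2 * p4 + 109760 * p2 * p6 + 5040 * p2 * p8 - 282240 * p3 ^ 2 - 439040 * p3 * p5 - 80640 * p3 * p7 + 343000 * p4 ^ 2 + 352800 * p4 * p6 + 27720 * p4 * p8 - 282240 * p5 ^ 2 - 177408 * p5 * p7 + 155232 * p6 ^ 2 + 48048 * p6 * p8 - 54912 * p7 ^ 2 + 12870 * p8 ^ 2)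
    (hW0 : 0 < 16 * p0 * p1 - 336 * p0 * p3 + 560 * p0 * p5 - 112 * p0 * p7 + 448 * p1 * p2 - 3360 * p1 * p4 + 2240 * p1 * p6 - 112 * p1 * p8 + 3136 * p2 * p3 - 9408 * p2 * p5 + 2240 * p2 * p7 + 7840 * p3 * p4 - 9408 * p3 * p6 + 560 * p3 * p8 + 7840 * p4 * p5 - 3360 * p4 * p7 + 3136 * p5 * p6 - 336 * p5 * p8 + 448 * p6 * p7 + 16 * p7 * p8)
    (hW1 : 0 < -224 * p0 * p1 + 3360 * p0 * p3 - 3360 * p0 * p5 + 224 * p0 * p7 - 4480 * p1 * p2 + 20160 * p1 * p4 - 4480 * p1 * p6 - 224 * p1 * p8 - 18816 * p2 * p3 + 18816 * p2 * p5 + 4480 * p2 * p7 - 15680 * p3 * p4 - 18816 * p3 * p6 + 3360 * p3 * p8 + 15680 * p4 * p5 - 20160 * p4 * p7 + 18816 * p5 * p6 - 3360 * p5 * p8 + 4480 * p6 * p7 + 224 * p7 * p8)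
    (hW2 : 0 ≤ 1456 * p0 * p1 - 14448 * p0 * p3 + 6160 * p0 * p5 + 560 * p0 * p7 + 19264 * p1 * p2 - 36960 * p1 * p4 - 11200 * p1 * p6 + 560 * p1 * p8 + 34496 * p2 * p3 + 47040 * p2 * p5 - 11200 * p2 * p7 - 39200 * p3 * p4 + 47040 * p3 * p6 + 6160 * p3 * p8 - 39200 * p4 * p5 - 36960 * p4 * p7 + 34496 * p5 * p6 - 14448 * p5 * p8 + 19264 * p6 * p7 + 1456 * p7 * p8)
    (hW3 : 0 ≤ -5824 * p0 * p1 + 33600 * p0 * p3 + 2240 * p0 * p5 - 1344 * p0 * p7 - 44800 * p1 * p2 - 13440 * p1 * p4 + 26880 * p1 * p6 + 1344 * p1 * p8 + 12544 * p2 * p3 - 112896 * p2 * p5 - 26880 * p2 * p7 + 94080 * p3 * p4 + 112896 * p3 * p6 - 2240 * p3 * p8 - 94080 * p4 * p5 + 13440 * p4 * p7 - 12544 * p5 * p6 - 33600 * p5 * p8 + 44800 * p6 * p7 + 5824 * p7 * p8)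
    (hW4 : 0 ≤ 16016 * p0 * p1 - 40656 * p0 * p3 - 21840 * p0 * p5 - 1008 * p0 * p7 + 54208 * p1 * p2 + 131040 * p1 * p4 + 20160 * p1 * p6 - 1008 * p1 * p8 - 122304 * p2 * p3 - 84672 * p2 * p5 + 20160 * p2 * p7 + 70560 * p3 * p4 - 84672 * p3 * p6 - 21840 * p3 * p8 + 70560 * p4 * p5 + 131040 * p4 * p7 - 122304 * p5 * p6 - 40656 * p5 * p8 + 54208 * p6 * p7 + 16016 * p7 * p8)
    (hW5 : 0 ≤ -32032 * p0 * p1 + 7392 * p0 * p3 + 21280 * p0 * p5 + 3360 * p0 * p7 - 9856 * p1 * p2 - 127680 * p1 * p4 - 67200 * p1 * p6 - 3360 * p1 * p8 + 119168 * p2 * p3 + 282240 * p2 * p5 + 67200 * p2 * p7 - 235200 * p3 * p4 - 282240 * p3 * p6 - 21280 * p3 * p8 + 235200 * p4 * p5 + 127680 * p4 * p7 - 119168 * p5 * p6 - 7392 * p5 * p8 + 9856 * p6 * p7 + 32032 * p7 * p8)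
    (hW6 : 0 ≤ 48048 * p0 * p1 + 55440 * p0 * p3 + 15120 * p0 * p5 + 560 * p0 * p7 - 73920 * p1 * p2 - 90720 * p1 * p4 - 11200 * p1 * p6 + 560 * p1 * p8 + 84672 * p2 * p3 + 47040 * p2 * p5 - 11200 * p2 * p7 - 39200 * p3 * p4 + 47040 * p3 * p6 + 15120 * p3 * p8 - 39200 * p4 * p5 - 90720 * p4 * p7 + 84672 * p5 * p6 + 55440 * p5 * p8 - 73920 * p6 * p7 + 48048 * p7 * p8)
    (hW7 : 0 ≤ -54912 * p0 * p1 - 88704 * p0 * p3 - 40320 * p0 * p5 - 4480 * p0 * p7 + 118272 * p1 * p2 + 241920 * p1 * p4 + 89600 * p1 * p6 + 4480 * p1 * p8 - 225792 * p2 * p3 - 376320 * p2 * p5 - 89600 * p2 * p7 + 313600 * p3 * p4 + 376320 * p3 * p6 + 40320 * p3 * p8 - 313600 * p4 * p5 - 241920 * p4 * p7 + 225792 * p5 * p6 + 88704 * p5 * p8 - 118272 * p6 * p7 + 54912 * p7 * p8) :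
    (∀ v ∈ ([p8, p7, p6, p5, p4, p3, p2, p1, p0] : List ℝ), 0 < v) ∧ (∀ t ∈ L8, 0 < evT [p8, p7, p6, p5, p4, p3, p2, p1, p0] t) ∧ (∀ t ∈ M8, 0 ≤ evT [p8, p7, p6, p5, p4, p3, p2, p1, p0] t) := by
  have hN11 : 0 ≤ p1 * p1 - p0 * p2 := by linarith
  have hN22 : 0 ≤ p2 * p2 - p1 * p3 := by linarith
  have hN33 : 0 ≤ p3 * p3 - p2 * p4 := by linarith
  have hN44 : 0 ≤ p4 * p4 - p3 * p5 := by linarith
  have hN55 : 0 ≤ p5 * p5 - p4 * p6 := by linarith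
  have hN66 : 0 ≤ p6 * p6 - p5 * p7 := by linarith
  have hN77 : 0 ≤ p7 * p7 - p6 * p8 := by linarith
  have hN12 : 0 ≤ p1 * p2 - p0 * p3 := tr8 (x := p0) (y := p1) (z := p1) (w := p2) (v := p3) hp2 hN11 hN22 hp1.le hp3.le
  have hN23 : 0 ≤ p2 * p3 - p1 * p4 := tr8 (x := p1) (y := p2) (z := p2) (w := p3) (v := p4) hp3 hN22 hN33 hp2.le hp4.le
  have hN34 : 0 ≤ p3 * p4 - p2 * p5 := tr8 (x := p2) (y := p3) (z := p3) (w := p4) (v := p5) hp4 hN33 hN44 hp3.le hp5.le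
  have hN45 : 0 ≤ p4 * p5 - p3 * p6 := tr8 (x := p3) (y := p4) (z := p4) (w := p5) (v := p6) hp5 hN44 hN55 hp4.le hp6.le
  have hN56 : 0 ≤ p5 * p6 - p4 * p7 := tr8 (x := p4) (y := p5) (z := p5) (w := p6) (v := p7) hp6 hN55 hN66 hp5.le hp7.le
  have hN67 : 0 ≤ p6 * p7 - p5 * p8 := tr8 (x := p5) (y := p6) (z := p6) (w := p7) (v := p8) hp7 hN66 hN77 hp6.le hp8.le
  have hN13 : 0 ≤ p1 * p3 - p0 * p4 := tr8 (x := p0) (y := p1) (z := p2) (w := p3) (v := p4) hp3 hN12 hN33 hp1.le hp4.le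
  have hN24 : 0 ≤ p2 * p4 - p1 * p5 := tr8 (x := p1) (y := p2) (z := p3) (w := p4) (v := p5) hp4 hN23 hN44 hp2.le hp5.le
  have hN35 : 0 ≤ p3 * p5 - p2 * p6 := tr8 (x := p2) (y := p3) (z := p4) (w := p5) (v := p6) hp5 hN34 hN55 hp3.le hp6.le
  have hN46 : 0 ≤ p4 * p6 - p3 * p7 := tr8 (x := p3) (y := p4) (z := p5) (w := p6) (v := p7) hp6 hN45 hN66 hp4.le hp7.le
  have hN57 : 0 ≤ p5 * p7 - p4 * p8 := tr8 (x := p4) (y := p5) (z := p6) (w := p7) (v := p8) hp7 hN56 hN77 hp5.le hp8.le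
  have hN14 : 0 ≤ p1 * p4 - p0 * p5 := tr8 (x := p0) (y := p1) (z := p3) (w := p4) (v := p5) hp4 hN13 hN44 hp1.le hp5.le
  have hN25 : 0 ≤ p2 * p5 - p1 * p6 := tr8 (x := p1) (y := p2) (z := p4) (w := p5) (v := p6) hp5 hN24 hN55 hp2.le hp6.le
  have hN36 : 0 ≤ p3 * p6 - p2 * p7 := tr8 (x := p2) (y := p3) (z := p5) (w := p6) (v := p7) hp6 hN35 hN66 hp3.le hp7.le
  have hN47 : 0 ≤ p4 * p7 - p3 * p8 := tr8 (x := p3) (y := p4) (z := p6) (w := p7) (v := p8) hp7 hN46 hN77 hp4.le hp8.le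
  have hN15 : 0 ≤ p1 * p5 - p0 * p6 := tr8 (x := p0) (y := p1) (z := p4) (w := p5) (v := p6) hp5 hN14 hN55 hp1.le hp6.le
  have hN26 : 0 ≤ p2 * p6 - p1 * p7 := tr8 (x := p1) (y := p2) (z := p5) (w := p6) (v := p7) hp6 hN25 hN66 hp2.le hp7.le
  have hN37 : 0 ≤ p3 * p7 - p2 * p8 := tr8 (x := p2) (y := p3) (z := p6) (w := p7) (v := p8) hp7 hN36 hN77 hp3.le hp8.le
  have hN16 : 0 ≤ p1 * p6 - p0 * p7 := tr8 (x := p0) (y := p1) (z := p5) (w := p6) (v := p7) hp6 hN15 hN66 hp1.le hp7.le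
  have hN27 : 0 ≤ p2 * p7 - p1 * p8 := tr8 (x := p1) (y := p2) (z := p6) (w := p7) (v := p8) hp7 hN26 hN77 hp2.le hp8.le
  have hN17 : 0 ≤ p1 * p7 - p0 * p8 := tr8 (x := p0) (y := p1) (z := p6) (w := p7) (v := p8) hp7 hN16 hN77 hp1.le hp8.le
  refine ⟨?_, ?_, ?_⟩
  · exact List.forall_mem_cons.2 ⟨hp8, List.forall_mem_cons.2 ⟨hp7, List.forall_mem_cons.2 ⟨hp6, List.forall_mem_cons.2 ⟨hp5, List.forall_mem_cons.2 ⟨hp4, List.forall_mem_cons.2 ⟨hp3, List.forall_mem_cons.2 ⟨hp2, List.forall_mem_cons.2 ⟨hp1, List.forall_mem_cons.2 ⟨hp0, List.forall_mem_nil _⟩⟩⟩⟩⟩⟩⟩⟩⟩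
  · exact List.forall_mem_cons.2 ⟨(t8c1_ev p0 p1 p2 p3 p4 p5 p6 p7 p8).symm ▸ hc1, List.forall_mem_cons.2 ⟨(t8c2_ev p0 p1 p2 p3 p4 p5 p6 p7 p8).symm ▸ hc2, List.forall_mem_cons.2 ⟨(t8c3_ev p0 p1 p2 p3 p4 p5 p6 p7 p8).symm ▸ hc3, List.forall_mem_cons.2 ⟨(t8c4_ev p0 p1 p2 p3 p4 p5 p6 p7 p8).symm ▸ hc4, List.forall_mem_cons.2 ⟨(t8c5_ev p0 p1 p2 p3 p4 p5 p6 p7 p8).symm ▸ hc5, List.forall_mem_cons.2 ⟨(t8c6_ev p0 p1 p2 p3 p4 p5 p6 p7 p8).symm ▸ hc6, List.forall_mem_cons.2 ⟨(t8c7_ev p0 p1 p2 p3 p4 p5 p6 p7 p8).symm ▸ hc7, List.forall_mem_cons.2 ⟨(t8c8_ev p0 p1 p2 p3 p4 p5 p6 p7 p8).symm ▸ hc8, List.forall_mem_cons.2 ⟨(t8W0_ev p0 p1 p2 p3 p4 p5 p6 p7 p8).symm ▸ hW0, List.forall_mem_cons.2 ⟨(t8W1_ev p0 p1 p2 p3 p4 p5 p6 p7 p8).symm ▸ hW1, List.forall_mem_nil _⟩⟩⟩⟩⟩⟩⟩⟩⟩⟩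
  · exact List.forall_mem_cons.2 ⟨(t8W2_ev p0 p1 p2 p3 p4 p5 p6 p7 p8).symm ▸ (by linarith), List.forall_mem_cons.2 ⟨(t8W3_ev p0 p1 p2 p3 p4 p5 p6 p7 p8).symm ▸ (by linarith), List.forall_mem_cons.2 ⟨(t8W4_ev p0 p1 p2 p3 p4 p5 p6 p7 p8).symm ▸ (by linarith), List.forall_mem_cons.2 ⟨(t8W5_ev p0 p1 p2 p3 p4 p5 p6 p7 p8).symm ▸ (by linarith), List.forall_mem_cons.2 ⟨(t8W6_ev p0 p1 p2 p3 p4 p5 p6 p7 p8).symm ▸ (by linarith), List.forall_mem_cons.2 ⟨(t8W7_ev p0 p1 p2 p3 p4 p5 p6 p7 p8).symm ▸ (by linarith), List.forall_mem_cons.2 ⟨(t8N11_ev p0 p1 p2 p3 p4 p5 p6 p7 p8).symm ▸ (by linarith), List.forall_mem_cons.2 ⟨(t8N12_ev p0 p1 p2 p3 p4 p5 p6 p7 p8).symm ▸ (by linarith), List.forall_mem_cons.2 ⟨(t8N13_ev p0 p1 p2 p3 p4 p5 p6 p7 p8).symm ▸ (by linarith), List.forall_mem_cons.2 ⟨(t8N14_ev p0 p1 p2 p3 p4 p5 p6 p7 p8).symm ▸ (by linarith),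 List.forall_mem_cons.2 ⟨(t8N15_ev p0 p1 p2 p3 p4 p5 p6 p7 p8).symm ▸ (by linarith), List.forall_mem_cons.2 ⟨(t8N16_ev p0 p1 p2 p3 p4 p5 p6 p7 p8).symm ▸ (by linarith), List.forall_mem_cons.2 ⟨(t8N17_ev p0 p1 p2 p3 p4 p5 p6 p7 p8).symm ▸ (by linarith), List.forall_mem_cons.2 ⟨(t8N22_ev p0 p1 p2 p3 p4 p5 p6 p7 p8).symm ▸ (by linarith), List.forall_mem_cons.2 ⟨(t8N23_ev p0 p1 p2 p3 p4 p5 p6 p7 p8).symm ▸ (by linarith), List.forall_mem_cons.2 ⟨(t8N24_ev p0 p1 p2 p3 p4 p5 p6 p7 p8).symm ▸ (by linarith), List.forall_mem_cons.2 ⟨(t8N25_ev p0 p1 p2 p3 p4 p5 p6 p7 p8).symm ▸ (by linarith), List.forall_mem_cons.2 ⟨(t8N26_ev p0 p1 p2 p3 p4 p5 p6 p7 p8).symm ▸ (by linarith), List.forall_mem_cons.2 ⟨(t8N27_ev p0 p1 p2 p3 p4 p5 p6 p7 p8).symm ▸ (by linarith), List.forall_mem_cons.2 ⟨(t8N33_ev p0 p1 p2 p3 p4 p5 p6 p7 p8).symm ▸ (by linarith), List.forall_mem_cons.2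 ⟨(t8N34_ev p0 p1 p2 p3 p4 p5 p6 p7 p8).symm ▸ (by linarith), List.forall_mem_cons.2 ⟨(t8N35_ev p0 p1 p2 p3 p4 p5 p6 p7 p8).symm ▸ (by linarith), List.forall_mem_cons.2 ⟨(t8N36_ev p0 p1 p2 p3 p4 p5 p6 p7 p8).symm ▸ (by linarith), List.forall_mem_cons.2 ⟨(t8N37_ev p0 p1 p2 p3 p4 p5 p6 p7 p8).symm ▸ (by linarith), List.forall_mem_cons.2 ⟨(t8N44_ev p0 p1 p2 p3 p4 p5 p6 p7 p8).symm ▸ (by linarith), List.forall_mem_cons.2 ⟨(t8N45_ev p0 p1 p2 p3 p4 p5 p6 p7 p8).symm ▸ (by linarith), List.forall_mem_cons.2 ⟨(t8N46_ev p0 p1 p2 p3 p4 p5 p6 p7 p8).symm ▸ (by linarith), List.forall_mem_cons.2 ⟨(t8N47_ev p0 p1 p2 p3 p4 p5 p6 p7 p8).symm ▸ (by linarith), List.forall_mem_cons.2 ⟨(t8N55_ev p0 p1 p2 p3 p4 p5 p6 p7 p8).symm ▸ (by linarith), List.forall_mem_cons.2 ⟨(t8N56_ev p0 p1 p2 p3 p4 p5 p6 p7 p8).symm ▸ (by linarith), List.forall_mem_cons.2 ⟨(t8N57_ev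 p0 p1 p2 p3 p4 p5 p6 p7 p8).symm ▸ (by linarith), List.forall_mem_cons.2 ⟨(t8N66_ev p0 p1 p2 p3 p4 p5 p6 p7 p8).symm ▸ (by linarith), List.forall_mem_cons.2 ⟨(t8N67_ev p0 p1 p2 p3 p4 p5 p6 p7 p8).symm ▸ (by linarith), List.forall_mem_cons.2 ⟨(t8N77_ev p0 p1 p2 p3 p4 p5 p6 p7 p8).symm ▸ (by linarith), List.forall_mem_nil _⟩⟩⟩⟩⟩⟩⟩⟩⟩⟩⟩⟩⟩⟩⟩⟩⟩⟩⟩⟩⟩⟩⟩⟩⟩⟩⟩⟩⟩⟩⟩⟩⟩⟩

end Pool.Agent.Lib.MP_fe2d2a_anLP
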